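import Pool.Agent.Lib_helper2.K4.Closed11D

set_option autoImplicit false
set_option linter.unusedVariables false
set_option linter.unusedSimpArgs false

/-!
Order eleven with constants: closed elements of `T ⊗ G + C` where `T` is the span of the `t(a,b)`.
-/

namespace Pool.Agent.K4CC

open Pool.Agent.K4Fin Pool.Agent.K4Closed ExteriorAlgebra
open scoped TensorProduct

variable {B G H : Type*} [AddCommGroup B] [Module ℚ B]
  [AddCommGroup G] [Module ℚ G] [AddCommGroup H] [Module ℚ H]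

section Lin

/-- coordinates which vanish on `K` -/
lemma exists_coord_mod (K : Submodule ℚ G) {n : ℕ} {v : Fin n → G}
    (hv : ∀ a : Fin n → ℚ, ∑ i, a i • v i ∈ K → a = 0) :
    ∃ L : G →ₗ[ℚ] (Fin n → ℚ), (∀ i, L (v i) = Pi.single i 1) ∧ ∀ k ∈ K, L k = 0 := by
  have h : LinearIndependent ℚ (fun i => K.mkQ (v i)) := by
    rw [Fintype.linearIndependent_iff]
    intro a ha
    have h1 : K.mkQ (∑ i, a i • v i) = 0 := by
      rw [map_sum]
      simpa only [map_smul] using ha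
    rw [Submodule.mkQ_apply, Submodule.Quotient.mk_eq_zero] at h1
    intro i
    exact congrFun (hv a h1) i
  obtain ⟨L, hL⟩ := exists_coord h
  refine ⟨L.comp K.mkQ, fun i => hL i, fun k hk => ?_⟩
  have : K.mkQ k = 0 := by rwa [Submodule.mkQ_apply, Submodule.Quotient.mk_eq_zero]
  rw [LinearMap.comp_apply, this, map_zero]

/-- a vector killed by the forms vanishing on `S` is in `S` -/
lemma mem_of_forms (S : Submodule ℚ G) (x : G)
    (h : ∀ φ : G →ₗ[ℚ] ℚ, (∀ s ∈ S, φ s = 0) → φ x = 0) : x ∈ S := by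
  by_contra hx
  obtain ⟨f, hf, hS⟩ := Submodule.exists_le_ker_of_notMem (p := S) hx
  exact hf (h f fun s hs => hS hs)

end Lin

variable {t : ZMod 11 → ZMod 11 → B} {g : ZMod 11 → G} {m : B →ₗ[ℚ] G →ₗ[ℚ] H}

lemma det3_row (a b c : ℚ) (x y : ℚ) (r : Fin 3 → ℚ) :
    Matrix.det ![![0, 0, x], ![0, 0, y], r] = 0 := by
  have := Matrix.det_fin_three (R := ℚ) ![![0, 0, x], ![0, 0, y], r]
  rw [this]
  simp

lemma det_cyc (p q r s w : Fin 3 → ℚ) :
    Matrix.det ![p + w, q + w, s] + Matrix.det ![q + w, r + w, s] +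
      Matrix.det ![r + w, p + w, s] =
    Matrix.det ![p, q, s] + Matrix.det ![q, r, s] + Matrix.det ![r, p, s] := by
  have d : ∀ a b c : Fin 3 → ℚ, Matrix.det ![a, b, c] = a 0 * b 1 * c 2 - a 0 * b 2 * c 1
      - a 1 * b 0 * c 2 + a 1 * b 2 * c 0 + a 2 * b 0 * c 1 - a 2 * b 1 * c 0 :=
    fun a b c => Matrix.det_fin_three (R := ℚ) ![a, b, c]
  simp only [d, Pi.add_apply]
  ring

omit [Module ℚ G] in
lemma GG_HH (g : ZMod 11 → G) (k : Fin 5) :
    GG g k = (if h : k = 0 then 0 else HH g (k.pred h)) + g 1 := by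
  fin_cases k <;> simp [GG, HH]

/-- the coordinates of `GG k - g 1` in two of the basis vectors -/
def qq (a b : Fin 4) (k : Fin 5) : Fin 3 → ℚ :=
  ![if k = a.succ then 1 else 0, if k = b.succ then 1 else 0, 0]

lemma phi_GG {L : G →ₗ[ℚ] (Fin 4 → ℚ)} (hL : ∀ i, L (HH g i) = Pi.single i 1)
    (φ : G →ₗ[ℚ] ℚ) (hφ : ∀ j, φ (HH g j) = 0) (a b : Fin 4) (k : Fin 5) :
    LinearMap.pi ![(LinearMap.proj a).comp L, (LinearMap.proj b).comp L, φ] (GG g k) =
      qq a b k + LinearMap.pi ![(LinearMap.proj a).comp L, (LinearMap.proj b).comp L, φ] (g 1) := by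
  rw [GG_HH, map_add]
  congr 1
  by_cases h : k = 0
  · subst h
    rw [dif_pos rfl, map_zero]
    ext j
    fin_cases j
    · simp [qq, (Fin.succ_ne_zero a).symm]
    · simp [qq, (Fin.succ_ne_zero b).symm]
    · simp [qq]
  · rw [dif_neg h]
    obtain ⟨j, rfl⟩ := Fin.exists_succ_eq.mpr h
    rw [Fin.pred_succ]
    ext l
    fin_cases l
    · show L (HH g j) a = _
      rw [hL, Pi.single_apply]
      simp [qq, Fin.succ_inj, eq_comm]
    · show L (HH g j) b = _
      rw [hL, Pi.single_apply]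
      simp [qq, Fin.succ_inj, eq_comm]
    · show φ (HH g j) = _
      rw [hφ]
      simp [qq]

lemma det_qq (a b : Fin 4) (k l : Fin 5) (r : Fin 3 → ℚ) :
    Matrix.det ![qq a b k, qq a b l, r] =
      (qq a b k 0 * qq a b l 1 - qq a b k 1 * qq a b l 0) * r 2 := by
  have := Matrix.det_fin_three (R := ℚ) ![qq a b k, qq a b l, r]
  rw [this]
  simp only [qq, Matrix.cons_val_zero, Matrix.cons_val_one, Matrix.cons_val]
  ring

lemma stepA (D : Dat t g m) {de : B →ₗ[ℚ] ExteriorAlgebra ℚ G}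
    (hde : ∀ a b, de (t a b) = ι ℚ (g a) * ι ℚ (g b) + ι ℚ (g b) * ι ℚ (g (a + b)) +
      ι ℚ (g (a + b)) * ι ℚ (g a))
    (K : Submodule ℚ G) {L : G →ₗ[ℚ] (Fin 4 → ℚ)} (hL : ∀ i, L (HH g i) = Pi.single i 1)
    (hK : ∀ k ∈ K, L k = 0) (w : Fin 5 → G) (x : B ⊗[ℚ] G)
    (hx : ∀ φ : G →ₗ[ℚ] (Fin 3 → ℚ), (∀ k ∈ K, φ k 0 = 0) → (∀ k ∈ K, φ k 1 = 0) →
      dfun φ (del de x) = 0)
    (h0 : del de (∑ i, TT t i ⊗ₜ[ℚ] w i + x) = 0)
    (φ : G →ₗ[ℚ] ℚ) (hφ : ∀ j, φ (HH g j) = 0) (i : Fin 5) : φ (w i) = 0 := by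
  have key : ∀ a b : Fin 4, ∑ i, ((qq a b (jj i 0) 0 * qq a b (jj i 1) 1 -
      qq a b (jj i 0) 1 * qq a b (jj i 1) 0) + (qq a b (jj i 1) 0 * qq a b (jj i 2) 1 -
      qq a b (jj i 1) 1 * qq a b (jj i 2) 0) + (qq a b (jj i 2) 0 * qq a b (jj i 0) 1 -
      qq a b (jj i 2) 1 * qq a b (jj i 0) 0)) * φ (w i) = 0 := by
    intro a b
    set Φ : G →ₗ[ℚ] (Fin 3 → ℚ) :=
      LinearMap.pi ![(LinearMap.proj a).comp L, (LinearMap.proj b).comp L, φ] with hΦ
    have h1 := congrArg (dfun Φ) h0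
    have h2 : dfun Φ (del de x) = 0 := by
      refine hx Φ (fun k hk => ?_) (fun k hk => ?_)
      · show L k a = 0
        rw [hK k hk]; rfl
      · show L k b = 0
        rw [hK k hk]; rfl
    rw [map_add, map_add, h2, add_zero, map_zero, map_sum, map_sum] at h1
    rw [← h1]
    refine Finset.sum_congr rfl fun i _ => ?_
    have e : Φ (w i) 2 = φ (w i) := rfl
    have e3 : dfun Φ (del de (TT t i ⊗ₜ[ℚ] w i)) =
        Matrix.det ![qq a b (jj i 0) + Φ (g 1), qq a b (jj i 1) + Φ (g 1), Φ (w i)] +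
        Matrix.det ![qq a b (jj i 1) + Φ (g 1), qq a b (jj i 2) + Φ (g 1), Φ (w i)] +
        Matrix.det ![qq a b (jj i 2) + Φ (g 1), qq a b (jj i 0) + Φ (g 1), Φ (w i)] := by
      rw [del_tmul, de_TT D hde, add_mul (_ + _) _ (ι ℚ (w i)), add_mul _ _ (ι ℚ (w i)),
        map_add, map_add, dfun_mul, dfun_mul, dfun_mul,
        phi_GG hL φ hφ a b (jj i 0), phi_GG hL φ hφ a b (jj i 1), phi_GG hL φ hφ a b (jj i 2)]
    rw [e3, det_cyc, det_qq, det_qq, det_qq, e]
    ring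
  have k01 := key 0 1
  have k12 := key 1 2
  have k23 := key 2 3
  have k13 := key 1 3
  have k03 := key 0 3
  have k02 := key 0 2
  simp [Fin.sum_univ_five, qq, jj, Fin.ext_iff] at k01 k12 k23 k13 k03 k02
  fin_cases i <;> simp <;> linarith


lemma eqn2 (D : Dat t g m) {de : B →ₗ[ℚ] ExteriorAlgebra ℚ G}
    (hde : ∀ a b, de (t a b) = ι ℚ (g a) * ι ℚ (g b) + ι ℚ (g b) * ι ℚ (g (a + b)) +
      ι ℚ (g (a + b)) * ι ℚ (g a))
    (K : Submodule ℚ G) {L : G →ₗ[ℚ] (Fin 4 → ℚ)} (hL : ∀ i, L (HH g i) = Pi.single i 1)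
    (hK : ∀ k ∈ K, L k = 0) (c : Fin 5 → Fin 5 → ℚ) (hc : ∀ i, ∑ k, c i k = 0)
    (h0 : ∀ φ : G →ₗ[ℚ] (Fin 3 → ℚ), (∀ k ∈ K, φ k = 0) →
      dfun φ (del de (∑ i, ∑ k, c i k • (TT t i ⊗ₜ[ℚ] GG g k))) = 0) (x y z : Fin 5) :
    ∑ i, ∑ k, c i k * (dd (jj i 0) (jj i 1) k x y z + dd (jj i 1) (jj i 2) k x y z +
      dd (jj i 2) (jj i 0) k x y z) = 0 := by
  -- the five coordinate differences
  let ψ : Fin 5 → G →ₗ[ℚ] ℚ := fun x =>
    ![-((LinearMap.proj 0).comp L + (LinearMap.proj 1).comp L + (LinearMap.proj 2).comp L +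
      (LinearMap.proj 3).comp L), (LinearMap.proj 0).comp L, (LinearMap.proj 1).comp L,
      (LinearMap.proj 2).comp L, (LinearMap.proj 3).comp L] x
  have hψ : ∀ u x : Fin 5, ψ x (GG g u) = kr u x + (ψ x (g 1) - kr 0 x) := by
    intro u x
    have e : ∀ k : Fin 4, ∀ j : Fin 4, L (HH g k) j = if j = k then 1 else 0 := by
      intro k j
      rw [hL, Pi.single_apply]
    have e1 : ∀ j, L (g 2) j = L (g 1) j + if j = 0 then 1 else 0 := by
      intro j
      have := e 0 j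
      simp only [HH, Matrix.cons_val_zero, map_sub, Pi.sub_apply] at this
      linarith
    have e2 : ∀ j, L (g 3) j = L (g 1) j + if j = 1 then 1 else 0 := by
      intro j
      have := e 1 j
      simp only [HH, Matrix.cons_val_one, Matrix.cons_val_zero, map_sub, Pi.sub_apply] at this
      linarith
    have e3 : ∀ j, L (g 4) j = L (g 1) j + if j = 2 then 1 else 0 := by
      intro j
      have := e 2 j
      simp only [HH, Matrix.cons_val, map_sub, Pi.sub_apply] at this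
      linarith
    have e4 : ∀ j, L (g 5) j = L (g 1) j + if j = 3 then 1 else 0 := by
      intro j
      have := e 3 j
      simp only [HH, Matrix.cons_val, map_sub, Pi.sub_apply] at this
      linarith
    fin_cases u <;> fin_cases x <;>
      simp [ψ, GG, kr, e1, e2, e3, e4] <;> ring
  have hψK : ∀ x : Fin 5, ∀ k ∈ K, ψ x k = 0 := by
    intro x k hk
    have := hK k hk
    fin_cases x <;> simp [ψ, this]
  let φ : G →ₗ[ℚ] (Fin 3 → ℚ) := LinearMap.pi ![ψ x, ψ y, ψ z]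
  set w : Fin 3 → ℚ := ![ψ x (g 1) - kr 0 x, ψ y (g 1) - kr 0 y, ψ z (g 1) - kr 0 z] with hw
  have hφ : ∀ u : Fin 5, φ (GG g u) = ![kr u x, kr u y, kr u z] + w := by
    intro u
    ext j
    fin_cases j
    · exact hψ u x
    · exact hψ u y
    · exact hψ u z
  have h1 := h0 φ (fun k hk => by
    ext j
    fin_cases j
    · exact hψK x k hk
    · exact hψK y k hk
    · exact hψK z k hk)
  simp only [map_sum, map_smul, del_tmul, de_TT D hde, add_mul, map_add, dfun_mul, hφ, map_zero,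
    smul_eq_mul] at h1
  simp only [det_shift, dd_eq] at h1
  have h2 : ∀ i : Fin 5, ∑ k, c i k * (dd (jj i 0) (jj i 1) k x y z + dd (jj i 1) (jj i 2) k x y z +
      dd (jj i 2) (jj i 0) k x y z +
      (Matrix.det ![![kr (jj i 0) x, kr (jj i 0) y, kr (jj i 0) z],
        ![kr (jj i 1) x, kr (jj i 1) y, kr (jj i 1) z], w] +
      Matrix.det ![![kr (jj i 1) x, kr (jj i 1) y, kr (jj i 1) z],
        ![kr (jj i 2) x, kr (jj i 2) y, kr (jj i 2) z], w] +
      Matrix.det ![![kr (jj i 2) x, kr (jj i 2) y, kr (jj i 2) z],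
        ![kr (jj i 0) x, kr (jj i 0) y, kr (jj i 0) z], w])) =
      ∑ k, c i k * (dd (jj i 0) (jj i 1) k x y z + dd (jj i 1) (jj i 2) k x y z +
      dd (jj i 2) (jj i 0) k x y z) := by
    intro i
    simp only [mul_add (c i _) (_ + _ + _) (_ + _ + _), Finset.sum_add_distrib, ← Finset.sum_mul,
      hc, zero_mul, add_zero]
  rw [← h1]
  exact Finset.sum_congr rfl fun i _ => (h2 i).symm

/-- an element of `T ⊗ G` in terms of the five classes -/
lemma span_any (D : Dat t g m) (z : B ⊗[ℚ] G)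
    (hz : z ∈ Submodule.span ℚ {y | ∃ (a b : ZMod 11) (u : G), y = t a b ⊗ₜ[ℚ] u}) :
    ∃ w : Fin 5 → G, z = ∑ i, TT t i ⊗ₜ[ℚ] w i := by
  induction hz using Submodule.span_induction with
  | mem y hy =>
    obtain ⟨a, b, u, rfl⟩ := hy
    obtain ⟨i, s, hs⟩ := t_mem D a b
    refine ⟨Pi.single i (s • u), ?_⟩
    rw [Finset.sum_eq_single i]
    · rw [Pi.single_eq_same, hs, TensorProduct.tmul_smul, ← TensorProduct.smul_tmul']
    · intro j _ hj
      rw [Pi.single_eq_of_ne hj, TensorProduct.tmul_zero]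
    · intro h
      exact absurd (Finset.mem_univ i) h
  | zero =>
    refine ⟨0, ?_⟩
    simp
  | add x y _ _ hx hy =>
    obtain ⟨w, rfl⟩ := hx
    obtain ⟨w', rfl⟩ := hy
    refine ⟨w + w', ?_⟩
    rw [← Finset.sum_add_distrib]
    exact Finset.sum_congr rfl fun i _ => (TensorProduct.tmul_add _ _ _).symm
  | smul q x _ hx =>
    obtain ⟨w, rfl⟩ := hx
    refine ⟨q • w, ?_⟩
    rw [Finset.smul_sum]
    exact Finset.sum_congr rfl fun i _ => (TensorProduct.tmul_smul q _ _).symm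

/-- **Order eleven with constants.** -/
theorem abs_complete (D : Dat t g m) {de : B →ₗ[ℚ] ExteriorAlgebra ℚ G}
    (hde : ∀ a b, de (t a b) = ι ℚ (g a) * ι ℚ (g b) + ι ℚ (g b) * ι ℚ (g (a + b)) +
      ι ℚ (g (a + b)) * ι ℚ (g a))
    (K : Submodule ℚ G) (hind : ∀ a : Fin 4 → ℚ, ∑ i, a i • HH g i ∈ K → a = 0)
    (z x : B ⊗[ℚ] G)
    (hz : z ∈ Submodule.span ℚ {y | ∃ (a b : ZMod 11) (u : G), y = t a b ⊗ₜ[ℚ] u})
    (hx : ∀ φ : G →ₗ[ℚ] (Fin 3 → ℚ), (∀ k ∈ K, φ k 0 = 0) → (∀ k ∈ K, φ k 1 = 0) →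
      dfun φ (del de x) = 0)
    (h0 : del de (z + x) = 0) :
    ∃ q : ℚ, TensorProduct.lift m z = q • xi0 t g m := by
  obtain ⟨L, hL, hK⟩ := exists_coord_mod K hind
  obtain ⟨w, rfl⟩ := span_any D z hz
  have hw : ∀ i, w i ∈ Submodule.span ℚ (Set.range (HH g)) := fun i =>
    mem_of_forms _ _ fun φ hφ => stepA D hde K hL hK w x hx h0 φ
      (fun j => hφ _ (Submodule.subset_span ⟨j, rfl⟩)) i
  have hw' : ∀ i, ∃ a : Fin 4 → ℚ, ∑ j, a j • HH g j = w i := fun i =>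
    (Submodule.mem_span_range_iff_exists_fun ℚ).mp (hw i)
  choose a ha using hw'
  let c : Fin 5 → Fin 5 → ℚ := fun i => Fin.cons (-∑ j : Fin 4, a i j) (fun j => a i j)
  have hc : ∀ i, ∑ k, c i k = 0 := by
    intro i
    rw [Fin.sum_univ_succ]
    simp [c]
  have hcc : ∀ i, w i = ∑ k, c i k • GG g k := by
    intro i
    rw [GG_eq, hc, zero_smul, zero_add, ← ha i]
    rfl
  have hzz : ∑ i, TT t i ⊗ₜ[ℚ] w i = ∑ i, ∑ k, c i k • (TT t i ⊗ₜ[ℚ] GG g k) := by
    refine Finset.sum_congr rfl fun i _ => ?_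
    simp only [← TensorProduct.tmul_smul, ← TensorProduct.tmul_sum]
    rw [← hcc]
  rw [hzz] at h0 ⊢
  have h00 : ∀ φ : G →ₗ[ℚ] (Fin 3 → ℚ), (∀ k ∈ K, φ k = 0) →
      dfun φ (del de (∑ i, ∑ k, c i k • (TT t i ⊗ₜ[ℚ] GG g k))) = 0 := by
    intro φ hφ
    have h1 := congrArg (dfun φ) h0
    rw [map_add, map_add, hx φ (fun k hk => by rw [hφ k hk]; rfl)
      (fun k hk => by rw [hφ k hk]; rfl), add_zero, map_zero] at h1
    exact h1
  have E := eqn2 D hde K hL hK c hc h00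
  have key := rels D c
    (by have := E 0 1 2; simp [Fin.sum_univ_five, dd, kr, jj] at this; linarith)
    (by have := E 0 1 3; simp [Fin.sum_univ_five, dd, kr, jj] at this; linarith)
    (by have := E 0 1 4; simp [Fin.sum_univ_five, dd, kr, jj] at this; linarith)
    (by have := E 0 2 3; simp [Fin.sum_univ_five, dd, kr, jj] at this; linarith)
    (by have := E 0 2 4; simp [Fin.sum_univ_five, dd, kr, jj] at this; linarith)
    (by have := E 0 3 4; simp [Fin.sum_univ_five, dd, kr, jj] at this; linarith)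
    (by have := E 1 2 3; simp [Fin.sum_univ_five, dd, kr, jj] at this; linarith)
    (by have := E 1 2 4; simp [Fin.sum_univ_five, dd, kr, jj] at this; linarith)
    (by have := E 1 3 4; simp [Fin.sum_univ_five, dd, kr, jj] at this; linarith)
    (by have := E 2 3 4; simp [Fin.sum_univ_five, dd, kr, jj] at this; linarith)
  obtain ⟨q, hq⟩ := key
  refine ⟨q, ?_⟩
  rw [← hq]
  simp only [map_sum, map_smul, TensorProduct.lift.tmul]

end Pool.Agent.K4CC
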