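import Mathlib

set_option autoImplicit false

/-!
The Siegel units of the universal curve of order eleven in terms of the four cuspidal units.
-/

namespace Pool.Agent.K4CC

variable {V : Type*} [AddCommGroup V] [Module ℚ V]

/-- The four differences are independent modulo `K`. -/
theorem HH_ind (K : Submodule ℚ V) (b1 b2 b3 b4 : V)
    (hb : ∀ n1 n2 n3 n4 : ℚ, n1 • b1 + n2 • b2 + n3 • b3 + n4 • b4 ∈ K →
      n1 = 0 ∧ n2 = 0 ∧ n3 = 0 ∧ n4 = 0)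
    (g1 g2 g3 g4 g5 : V)
    (h1 : g2 - (4 : ℚ) • g1 = b1 + b2 + b4)
    (h2 : g4 - (4 : ℚ) • g2 = b2 + b3 + (2 : ℚ) • b4)
    (h4 : g3 - (4 : ℚ) • g4 = (2 : ℚ) • b1 + (3 : ℚ) • b2 + b3 - b4)
    (h3 : g5 - (4 : ℚ) • g3 = (-2 : ℚ) • b1 + (3 : ℚ) • b3 + b4)
    (h5 : g1 - (4 : ℚ) • g5 = - b1 + (4 : ℚ) • b2 + b3)
    (a : Fin 4 → ℚ) (ha : ∑ i, a i • ![g2 - g1, g3 - g1, g4 - g1, g5 - g1] i ∈ K) : a = 0 := by
  have e1 : g1 = -(3 / 11 : ℚ) • b1 - (4 / 11 : ℚ) • b2 - (1 / 11 : ℚ) • b3 - (4 / 11 : ℚ) • b4 := by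
    have k1 : g1 = (4 : ℚ) • ((4 : ℚ) • ((4 : ℚ) • ((4 : ℚ) • ((4 : ℚ) • g1 + (b1 + b2 + b4)) +
        (b2 + b3 + (2 : ℚ) • b4)) + ((2 : ℚ) • b1 + (3 : ℚ) • b2 + b3 - b4)) +
        ((-2 : ℚ) • b1 + (3 : ℚ) • b3 + b4)) + (- b1 + (4 : ℚ) • b2 + b3) := by
      have q2 : g2 = (4 : ℚ) • g1 + (b1 + b2 + b4) := by rw [← h1]; abel
      have q4 : g4 = (4 : ℚ) • g2 + (b2 + b3 + (2 : ℚ) • b4) := by rw [← h2]; abel
      have q3 : g3 = (4 : ℚ) • g4 + ((2 : ℚ) • b1 + (3 : ℚ) • b2 + b3 - b4) := by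
        rw [← h4]; abel
      have q5 : g5 = (4 : ℚ) • g3 + ((-2 : ℚ) • b1 + (3 : ℚ) • b3 + b4) := by rw [← h3]; abel
      have q1 : g1 = (4 : ℚ) • g5 + (- b1 + (4 : ℚ) • b2 + b3) := by rw [← h5]; abel
      rw [← q2, ← q4, ← q3, ← q5, ← q1]
    have k2 : (1023 : ℚ) • g1 = (1023 : ℚ) • (-(3 / 11 : ℚ) • b1 - (4 / 11 : ℚ) • b2 -
        (1 / 11 : ℚ) • b3 - (4 / 11 : ℚ) • b4) := by
      have k3 : (1023 : ℚ) • g1 = (1024 : ℚ) • g1 - g1 := by module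
      rw [k3]
      nth_rw 2 [k1]
      module
    have k4 := congrArg ((1023⁻¹ : ℚ) • ·) k2
    simp only [smul_smul] at k4
    norm_num at k4
    rw [k4]
    module
  have e2 : g2 = -(1 / 11 : ℚ) • b1 - (5 / 11 : ℚ) • b2 - (4 / 11 : ℚ) • b3 - (5 / 11 : ℚ) • b4 := by
    rw [eq_add_of_sub_eq h1, e1]; module
  have e4 : g4 = -(4 / 11 : ℚ) • b1 - (9 / 11 : ℚ) • b2 - (5 / 11 : ℚ) • b3 + (2 / 11 : ℚ) • b4 := by
    rw [eq_add_of_sub_eq h2, e2]; module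
  have e3 : g3 = (6 / 11 : ℚ) • b1 - (3 / 11 : ℚ) • b2 - (9 / 11 : ℚ) • b3 - (3 / 11 : ℚ) • b4 := by
    rw [eq_add_of_sub_eq h4, e4]; module
  have e5 : g5 = (2 / 11 : ℚ) • b1 - (12 / 11 : ℚ) • b2 - (3 / 11 : ℚ) • b3 - (1 / 11 : ℚ) • b4 := by
    rw [eq_add_of_sub_eq h3, e3]; module
  have key := hb (1 / 11 * (2 * a 0 + 9 * a 1 - 1 * a 2 + 5 * a 3))
    (1 / 11 * (- a 0 + a 1 - 5 * a 2 - 8 * a 3)) (1 / 11 * (-3 * a 0 - 8 * a 1 - 4 * a 2 - 2 * a 3))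
    (1 / 11 * (- a 0 + a 1 + 6 * a 2 + 3 * a 3)) (by
      have : ∑ i, a i • ![g2 - g1, g3 - g1, g4 - g1, g5 - g1] i =
          (1 / 11 * (2 * a 0 + 9 * a 1 - 1 * a 2 + 5 * a 3)) • b1 +
          (1 / 11 * (- a 0 + a 1 - 5 * a 2 - 8 * a 3)) • b2 +
          (1 / 11 * (-3 * a 0 - 8 * a 1 - 4 * a 2 - 2 * a 3)) • b3 +
          (1 / 11 * (- a 0 + a 1 + 6 * a 2 + 3 * a 3)) • b4 := by
        simp only [Fin.sum_univ_four, Matrix.cons_val_zero, Matrix.cons_val_one, Matrix.cons_val]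
        rw [e1, e2, e3, e4, e5]
        module
      rw [← this]
      exact ha)
  obtain ⟨k1, k2, k3, k4⟩ := key
  have a3 : a 3 = 0 := by linarith
  have a2 : a 2 = 0 := by linarith
  have a1 : a 1 = 0 := by linarith
  have a0 : a 0 = 0 := by linarith
  ext i
  fin_cases i
  · exact a0
  · exact a1
  · exact a2
  · exact a3

end Pool.Agent.K4CC
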