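import Pool.Agent.Lib_helper2.K4C.Alg

set_option autoImplicit false

/-!
The theorem of `Alg` for the triangulation and the Siegel units of a curve.
-/

namespace Pool.Agent.K4CC

open K4M Pool.Agent.K4Par Pool.Agent.K4Fin Pool.Agent.K4Closed ExteriorAlgebra
open scoped TensorProduct

variable {k F : Type*} [Field k] [Field F] [Algebra k F]

/-- the constants in `F^* ⊗ ℚ` -/
noncomputable def KC (k F : Type*) [Field k] [Field F] [Algebra k F] : Submodule ℚ (FT F) :=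
  Submodule.span ℚ {u | ∃ c : k, u = lg (algebraMap k F c)}

lemma lg_mem_KC (c : k) : (lg (algebraMap k F c) : FT F) ∈ KC k F :=
  Submodule.subset_span ⟨c, rfl⟩

lemma const_form (x : B2 F ⊗[ℚ] FT F)
    (hx : x ∈ Submodule.span ℚ {y | ∃ (c : k) (u : FT F), y = sy (algebraMap k F c) ⊗ₜ[ℚ] u})
    (φ : FT F →ₗ[ℚ] (Fin 3 → ℚ)) (h0 : ∀ c ∈ KC k F, φ c 0 = 0) (h1 : ∀ c ∈ KC k F, φ c 1 = 0) :
    dfun φ (del (de F) x) = 0 := by
  induction hx using Submodule.span_induction with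
  | mem y hy =>
    obtain ⟨c, u, rfl⟩ := hy
    rw [del_tmul, de_sy]
    have e1 : (1 : F) - algebraMap k F c = algebraMap k F (1 - c) := by
      rw [map_sub, map_one]
    rw [e1]
    show dfun φ (ι ℚ (lg (algebraMap k F (1 - c))) * ι ℚ (lg (algebraMap k F c)) * ι ℚ u) = 0
    rw [dfun_mul]
    have := Matrix.det_fin_three (R := ℚ) ![φ (lg (algebraMap k F (1 - c))),
      φ (lg (algebraMap k F c)), φ u]
    rw [this]
    simp only [Matrix.cons_val_zero, Matrix.cons_val_one, Matrix.cons_val,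
      h0 _ (lg_mem_KC c), h1 _ (lg_mem_KC c), h0 _ (lg_mem_KC (1 - c)), h1 _ (lg_mem_KC (1 - c))]
    ring
  | zero => rw [map_zero, map_zero]
  | add x y _ _ hx hy => rw [map_add, map_add, hx, hy, add_zero]
  | smul q x _ hx => rw [map_smul, map_smul, hx, smul_zero]

variable [CharZero F] [DecidableEq F] {W : WeierstrassCurve.Affine F}
  {A : AddSubgroup W.Point} [Fintype A]

/-- **Order eleven, with constants.** -/
theorem complete_curve (hA : (Nat.card A).Coprime 6) {g : A → FT F} (hg : IsG4 A g) (P : A)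
    (hP : 11 • P = 0)
    (hind : ∀ a : Fin 4 → ℚ, ∑ i, a i • ![g (2 • P) - g P, g (3 • P) - g P, g (4 • P) - g P,
      g (5 • P) - g P] i ∈ KC k F → a = 0)
    (z x : HK F)
    (hz : z ∈ Submodule.span ℚ
      {y | ∃ (a b : ℤ) (u : FT F), y = hk (tA A (a • P) (b • P)) u})
    (hx : x ∈ Submodule.span ℚ {y | ∃ (c : k) (u : FT F), y = hk (sy (algebraMap k F c)) u})
    (h0 : dH F (z + x) = 0) :
    ∃ q : ℚ, z = q • xi (hkL F) (tA A) g P (3 • P) := by
  obtain ⟨f, hf⟩ := exists_hom 11 P hP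
  have D := (dat_curve hA hg).comp f
  have f1 : f 1 = P := by
    have := hf 1
    rw [one_smul] at this
    rw [← this]; norm_cast
  have fn : ∀ n : ℕ, f (n : ZMod 11) = n • P := by
    intro n
    have := hf n
    rw [← natCast_zsmul, ← this]; norm_cast
  have f2 : f 2 = 2 • P := fn 2
  have f3 : f 3 = 3 • P := fn 3
  have f4 : f 4 = 4 • P := fn 4
  have f5 : f 5 = 5 • P := fn 5
  let mk : B2 F ⊗[ℚ] FT F →ₗ[ℚ] HK F := TensorProduct.lift (hkL F)
  obtain ⟨z', hz', rfl⟩ : ∃ z' ∈ Submodule.span ℚ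
      {y : B2 F ⊗[ℚ] FT F | ∃ (a b : ZMod 11) (u : FT F), y = tA A (f a) (f b) ⊗ₜ[ℚ] u},
      mk z' = z := by
    have h1 : z ∈ Submodule.map mk (Submodule.span ℚ
        {y : B2 F ⊗[ℚ] FT F | ∃ (a b : ZMod 11) (u : FT F), y = tA A (f a) (f b) ⊗ₜ[ℚ] u}) := by
      rw [Submodule.map_span]
      refine Submodule.span_mono ?_ hz
      rintro y ⟨a, b, u, rfl⟩
      exact ⟨_, ⟨(a : ZMod 11), (b : ZMod 11), u, rfl⟩, by rw [hf, hf]; rfl⟩
    exact h1
  obtain ⟨x', hx', rfl⟩ : ∃ x' ∈ Submodule.span ℚ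
      {y : B2 F ⊗[ℚ] FT F | ∃ (c : k) (u : FT F), y = sy (algebraMap k F c) ⊗ₜ[ℚ] u},
      mk x' = x := by
    have h1 : x ∈ Submodule.map mk (Submodule.span ℚ
        {y : B2 F ⊗[ℚ] FT F | ∃ (c : k) (u : FT F), y = sy (algebraMap k F c) ⊗ₜ[ℚ] u}) := by
      rw [Submodule.map_span]
      refine Submodule.span_mono ?_ hx
      rintro y ⟨c, u, rfl⟩
      exact ⟨_, ⟨c, u, rfl⟩, rfl⟩
    exact h1
  have hind' : ∀ a : Fin 4 → ℚ, ∑ i, a i • HH (fun a : ZMod 11 => g (f a)) i ∈ KC k F →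
      a = 0 := by
    have : HH (fun a : ZMod 11 => g (f a)) =
        ![g (2 • P) - g P, g (3 • P) - g P, g (4 • P) - g P, g (5 • P) - g P] := by
      unfold HH
      simp only [f1, f2, f3, f4, f5]
    rw [this]; exact hind
  have hde : ∀ a b : ZMod 11, de F (tA A (f a) (f b)) =
      ExteriorAlgebra.ι ℚ (g (f a)) * ExteriorAlgebra.ι ℚ (g (f b)) +
      ExteriorAlgebra.ι ℚ (g (f b)) * ExteriorAlgebra.ι ℚ (g (f (a + b))) +
      ExteriorAlgebra.ι ℚ (g (f (a + b))) * ExteriorAlgebra.ι ℚ (g (f a)) := by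
    intro a b
    rw [map_add]
    exact final_de hA hg (f a) (f b)
  have h00 : del (de F) (z' + x') = 0 := by
    rw [← map_add] at h0
    rw [← dH_mk, ← lift_hkL]
    exact h0
  obtain ⟨q, hq⟩ := abs_complete D (de := de F) hde (KC k F) hind' z' x' hz'
    (fun φ h0 h1 => const_form x' hx' φ h0 h1) h00
  refine ⟨q, ?_⟩
  show TensorProduct.lift (hkL F) z' = _
  rw [hq]
  congr 1
  unfold xi0
  simp only [f1, f3]
  rfl

end Pool.Agent.K4CC
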