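import Pool.Agent.Lib_helper2.K4C.Places2
import Pool.Agent.Lib_helper2.K4C.Curve

set_option autoImplicit false

/-!
Over an algebraically closed field: an element of the span of the `{c} ⊗ u`, `c` constant, `u`
arbitrary, without residues is in the span of the `{c} ⊗ κ`, `κ` constant.
-/

namespace Pool.Agent.K4CC

open K4M Pool.Agent.K4R
open scoped WithZero TensorProduct
open IntermediateField

/-- denominators -/
lemma exists_int_smul {M : Type*} [AddCommGroup M] (w : ℚ ⊗[ℤ] M) :
    ∃ (n : ℕ) (m : M), n ≠ 0 ∧ (n : ℚ) • w = (1 : ℚ) ⊗ₜ[ℤ] m := by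
  induction w using TensorProduct.induction_on with
  | zero => exact ⟨1, 0, one_ne_zero, by rw [smul_zero, TensorProduct.tmul_zero]⟩
  | tmul q m =>
    refine ⟨q.den, q.num • m, q.den_ne_zero, ?_⟩
    rw [TensorProduct.smul_tmul', smul_eq_mul, Rat.den_mul_eq_num, TensorProduct.tmul_smul,
      TensorProduct.smul_tmul']
    congr 1
    rw [zsmul_eq_mul, mul_one]
  | add x y hx hy =>
    obtain ⟨n, m, hn, h⟩ := hx
    obtain ⟨n', m', hn', h'⟩ := hy
    refine ⟨n * n', (n' : ℤ) • m + (n : ℤ) • m', mul_ne_zero hn hn', ?_⟩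
    have e1 : ((n * n' : ℕ) : ℚ) • x = (n' : ℚ) • ((n : ℚ) • x) := by
      rw [smul_smul, Nat.cast_mul, mul_comm]
    have e2 : ((n * n' : ℕ) : ℚ) • y = (n : ℚ) • ((n' : ℚ) • y) := by
      rw [smul_smul, Nat.cast_mul]
    rw [smul_add, e1, e2, h, h', TensorProduct.tmul_add, TensorProduct.tmul_smul,
      TensorProduct.tmul_smul]
    rw [natCast_zsmul, natCast_zsmul, Nat.cast_smul_eq_nsmul ℚ n', Nat.cast_smul_eq_nsmul ℚ n]

variable {k F : Type*} [Field k] [Field F] [Algebra k F]

lemma exists_lg (w : FT F) : ∃ (n : ℕ) (u : F), n ≠ 0 ∧ u ≠ 0 ∧ (n : ℚ) • w = lg u := by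
  obtain ⟨n, m, hn, h⟩ := exists_int_smul w
  refine ⟨n, (m.toMul : F), hn, Units.ne_zero _, ?_⟩
  rw [h]
  unfold lg
  rw [dif_neg (Units.ne_zero _)]
  congr 1
  congr 1
  exact Units.ext rfl

/-- a class killed by all places is constant -/
lemma mem_KC_of_places [IsAlgClosed k] [CharZero k] (x y : F)
    (hy : IsAlgebraic (adjoin k {x}) y) (hF : adjoin k {x, y} = ⊤) (w : FT F)
    (h : ∀ v : Valuation F ℤᵐ⁰, (∀ c : k, c ≠ 0 → v (algebraMap k F c) = 1) →
      (∃ f : F, f ≠ 0 ∧ v f ≠ 1) → valL v w = 0) : w ∈ KC k F := by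
  obtain ⟨n, u, hn, hu, hw⟩ := exists_lg w
  have hk : ∃ c : k, algebraMap k F c = u := by
    by_contra hcon
    have htr : Transcendental k u := by
      intro ha
      apply hcon
      obtain ⟨p, hp, h0⟩ := ha
      have hs := IsAlgClosed.splits p
      have e := hs.eq_prod_roots
      rw [e, map_mul, Polynomial.aeval_C, map_multiset_prod, Multiset.map_map, mul_eq_zero,
        map_eq_zero, Polynomial.leadingCoeff_eq_zero, or_iff_right hp,
        Multiset.prod_eq_zero_iff, Multiset.mem_map] at h0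
      obtain ⟨c, _, hc⟩ := h0
      refine ⟨c, ?_⟩
      simp only [Function.comp_apply, map_sub, Polynomial.aeval_X, Polynomial.aeval_C] at hc
      exact (sub_eq_zero.mp hc).symm
    obtain ⟨v, h1, h2⟩ := exists_place x y hy hF u htr
    have h3 := h v h1 ⟨u, hu, h2.ne'⟩
    have h4 : valL v (lg u) = 0 := by rw [← hw, map_smul, h3, smul_zero]
    rw [valL_lg v hu, Int.cast_eq_zero] at h4
    have h5 : v u = 1 := by
      have h6 := WithZero.exp_log (show v u ≠ 0 by rw [ne_eq, map_eq_zero]; exact hu)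
      rw [← h6, h4, WithZero.exp_zero]
    exact h2.ne' h5
  obtain ⟨c, hc⟩ := hk
  have hn' : (n : ℚ) ≠ 0 := Nat.cast_ne_zero.mpr hn
  have : w = (n : ℚ)⁻¹ • lg (algebraMap k F c) := by
    rw [hc, ← hw, smul_smul, inv_mul_cancel₀ hn', one_smul]
  rw [this]
  exact Submodule.smul_mem _ _ (lg_mem_KC c)

lemma hk_mem_CC (C : B2 k) (w : FT F) (hw : w ∈ KC k F) :
    hk (mapB (algebraMap k F) C) w ∈ CC k F := by
  induction hw using Submodule.span_induction with
  | mem w hw =>
    obtain ⟨κ, rfl⟩ := hw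
    by_cases hκ : κ = 0
    · rw [hκ, map_zero, lg_zero]
      have : (hk (mapB (algebraMap k F) C) 0 : HK F) = 0 := (hkL F _).map_zero
      rw [this]
      exact Submodule.zero_mem _
    obtain ⟨z, rfl⟩ := Submodule.Quotient.mk_surjective _ C
    induction z using Finsupp.induction_linear with
    | zero =>
      have : (Submodule.Quotient.mk 0 : B2 k) = 0 := rfl
      rw [this, map_zero, hk_zero_left]
      exact Submodule.zero_mem _
    | add u v hu hv =>
      rw [Submodule.Quotient.mk_add, map_add, hk_add_left]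
      exact Submodule.add_mem _ hu hv
    | single c q =>
      have : (Finsupp.single c q : k →₀ ℚ) = q • bs c := by
        unfold bs
        rw [Finsupp.smul_single, smul_eq_mul, mul_one]
      rw [this, Submodule.Quotient.mk_smul, map_smul, hk_smul_left]
      refine Submodule.smul_mem _ _ (Submodule.subset_span ⟨c, κ, hκ, ?_⟩)
      congr 1
      exact mapB_sy _ c
  | zero =>
    have : (hk (mapB (algebraMap k F) C) 0 : HK F) = 0 := (hkL F _).map_zero
    rw [this]
    exact Submodule.zero_mem _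
  | add u v _ _ hu hv =>
    rw [hk_add_right]
    exact Submodule.add_mem _ hu hv
  | smul q u _ hu =>
    rw [hk_smul_right]
    exact Submodule.smul_mem _ _ hu

/-- **No residues, no constants**, arbitrary second factors. -/
theorem const_kill_all [IsAlgClosed k] [CharZero k] (x y : F)
    (hy : IsAlgebraic (adjoin k {x}) y) (hF : adjoin k {x, y} = ⊤) (z : HK F)
    (hz : z ∈ Submodule.span ℚ {y : HK F | ∃ (c : k) (u : FT F),
      y = hk (sy (algebraMap k F c)) u})
    (h0 : ∀ (v : Valuation F ℤᵐ⁰) [Infinite (rf v)],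
      (∀ c : k, c ≠ 0 → v (algebraMap k F c) = 1) → resL v z = 0) : z ∈ CC k F := by
  classical
  let Φ : B2 k ⊗[ℚ] FT F →ₗ[ℚ] HK F :=
    TensorProduct.lift ((hkL F).comp (mapB (algebraMap k F)))
  have hΦ : ∀ C u, Φ (C ⊗ₜ[ℚ] u) = hk (mapB (algebraMap k F) C) u := fun C u => rfl
  obtain ⟨z', rfl⟩ : ∃ z', Φ z' = z := by
    have h1 : z ∈ LinearMap.range Φ := by
      refine (Submodule.span_le.mpr ?_) hz
      rintro y ⟨c, u, rfl⟩
      exact ⟨sy c ⊗ₜ[ℚ] u, by rw [hΦ, mapB_sy]⟩
    exact h1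
  obtain ⟨β⟩ : Nonempty (Module.Basis (Module.Basis.ofVectorSpaceIndex ℚ (B2 k)) ℚ (B2 k)) :=
    ⟨Module.Basis.ofVectorSpace ℚ (B2 k)⟩
  obtain ⟨c, rfl⟩ := TensorProduct.eq_repr_basis_left β z'
  have hx := isAlg_gen x y hy hF
  have hc : ∀ i, c i ∈ KC k F := by
    intro i
    refine mem_KC_of_places x y hy hF (c i) fun v hv hne => ?_
    obtain ⟨f, hf, hvf⟩ := hne
    have : Infinite k := IsAlgClosed.instInfinite
    have : Infinite (rf v) := infinite_rf v hv
    obtain ⟨ρ, h1, h2⟩ := exists_retract v hv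
      (fun g hg => res_const x hx v hv f hf hvf g hg)
    have h3 := h1 _ (h0 v hv)
    rw [Finsupp.sum, map_sum, map_sum] at h3
    simp only [hΦ, h2] at h3
    have h4 := linearIndependent_iff'.mp β.linearIndependent c.support (fun i => valL v (c i)) h3
    by_cases hi : i ∈ c.support
    · exact h4 i hi
    · rw [Finsupp.notMem_support_iff] at hi
      rw [hi, map_zero]
  rw [Finsupp.sum, map_sum]
  refine Submodule.sum_mem _ fun i _ => ?_
  rw [hΦ]
  exact hk_mem_CC _ _ (hc i)

end Pool.Agent.K4CC
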