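import Pool.Agent.Lib_helper2.K4.DefsC
import Pool.Agent.Lib_helper2.K4.Bridge
import Pool.Agent.Lib_helper2.K4C.Kill
import Pool.Agent.Lib_helper2.K4C.Ind
import Pool.Agent.Lib_helper60.K4C.Tate
import Pool.Agent.Lib_helper60.K4C.Indep
import Pool.Agent.Lib_helper60.K4C.NonConst

set_option autoImplicit false

/-!
Assembly for the universal curve of order eleven.
-/

namespace Pool.Agent.K4CC

open Pool.Agent.MK4 Pool.Agent.K4Par Pool.Agent.K4C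
open scoped TensorProduct WithZero

variable {k F : Type*} [Field k] [Field F] [DecidableEq F] [Algebra k F] {x y : F}

section

variable (hE : y ^ 2 + y = x ^ 3 - x ^ 2) (hx : x ≠ 0) (hx1 : x - 1 ≠ 0) (hy : y ≠ 0)
  (hxy : x + y ≠ 0)

include hE hx hx1 hy hxy

omit hE [DecidableEq F] in
lemma lg_pv : K4M.lg (pv x y 1) = K4M.lg x + K4M.lg (x - 1) + K4M.lg (x + y) ∧
    K4M.lg (pv x y 2) = K4M.lg (x - 1) + K4M.lg y + (2 : ℚ) • K4M.lg (x + y) ∧
    K4M.lg (pv x y 3) = (-2 : ℚ) • K4M.lg x + (3 : ℚ) • K4M.lg y + K4M.lg (x + y) ∧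
    K4M.lg (pv x y 4) = (2 : ℚ) • K4M.lg x + (3 : ℚ) • K4M.lg (x - 1) + K4M.lg y -
      K4M.lg (x + y) ∧
    K4M.lg (pv x y 5) = - K4M.lg x + (4 : ℚ) • K4M.lg (x - 1) + K4M.lg y := by
  refine ⟨?_, ?_, ?_, ?_, ?_⟩
  · show K4M.lg (-(x * (x - 1) * (x + y))) = _
    rw [K4M.lg_neg, K4M.lg_mul (mul_ne_zero hx hx1) hxy, K4M.lg_mul hx hx1]
  · show K4M.lg ((x - 1) * y * (x + y) ^ 2) = _
    rw [K4M.lg_mul (mul_ne_zero hx1 hy) (pow_ne_zero _ hxy), K4M.lg_mul hx1 hy, K4M.lg_pow hxy]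
    push_cast
    rfl
  · show K4M.lg (-(y ^ 3 * (x + y) / x ^ 2)) = _
    rw [K4M.lg_neg, K4M.lg_div (mul_ne_zero (pow_ne_zero _ hy) hxy) (pow_ne_zero _ hx),
      K4M.lg_mul (pow_ne_zero _ hy) hxy, K4M.lg_pow hy, K4M.lg_pow hx]
    push_cast
    module
  · show K4M.lg (x ^ 2 * (x - 1) ^ 3 * y / (x + y)) = _
    rw [K4M.lg_div (mul_ne_zero (mul_ne_zero (pow_ne_zero _ hx) (pow_ne_zero _ hx1)) hy) hxy,
      K4M.lg_mul (mul_ne_zero (pow_ne_zero _ hx) (pow_ne_zero _ hx1)) hy,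
      K4M.lg_mul (pow_ne_zero _ hx) (pow_ne_zero _ hx1), K4M.lg_pow hx, K4M.lg_pow hx1]
    push_cast
    module
  · show K4M.lg (-((x - 1) ^ 4 * y / x)) = _
    rw [K4M.lg_neg, K4M.lg_div (mul_ne_zero (pow_ne_zero _ hx1) hy) hx,
      K4M.lg_mul (pow_ne_zero _ hx1) hy, K4M.lg_pow hx1]
    push_cast
    module

/-- the independence hypothesis -/
lemma hind (ht : Transcendental k x) [Finite (AA x y hx hx1 hxy)]
    {g : AA x y hx hx1 hxy → K4M.FT F} (hS : Siegel (A := AA x y hx hx1 hxy) g)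
    (hg : K4M.IsG4 (F := F) (AA x y hx hx1 hxy) g)
    (a : Fin 4 → ℚ)
    (ha : ∑ i, a i • ![g (2 • PA x y hx hx1 hxy) - g (PA x y hx hx1 hxy),
      g (3 • PA x y hx hx1 hxy) - g (PA x y hx hx1 hxy),
      g (4 • PA x y hx hx1 hxy) - g (PA x y hx hx1 hxy),
      g (5 • PA x y hx hx1 hxy) - g (PA x y hx hx1 hxy)] i ∈ KC k F) : a = 0 := by
  set P := PA x y hx hx1 hxy with hP
  have h11 : 11 • P = 0 := PA_eleven hE hx hx1 hy hxy
  have hs : ∀ n : Fin 6, g ((2 * (n : ℕ)) • P) - (4 : ℚ) • g ((n : ℕ) • P) =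
      K4M.lg (pv x y n) := by
    intro n
    have h1 := hS ((n : ℕ) • P)
    have h2 : ps ((((n : ℕ) • P : AA x y hx hx1 hxy) : (TW x y).Point)) = pv x y n :=
      ps_eq_pv hE hx hx1 hy hxy n
    rw [h2, ← two_nsmul, smul_smul] at h1
    have e4 : (4 : ℚ) • g ((n : ℕ) • P) = 4 • g ((n : ℕ) • P) := ofNat_smul_eq_nsmul ℚ 4 _
    exact (congrArg (fun z => g ((2 * (n : ℕ)) • P) - z) e4).trans h1
  have ev : ∀ m n : ℕ, m + n = 11 → g (m • P) = g (n • P) := by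
    intro m n hmn
    have : m • P = -(n • P) := by
      rw [eq_neg_iff_add_eq_zero, ← add_smul, hmn, h11]
    rw [this]
    exact hg.even _
  obtain ⟨p1, p2, p3, p4, p5⟩ := lg_pv hx hx1 hy hxy
  have s1 := hs 1
  have s2 := hs 2
  have s3 := hs 3
  have s4 := hs 4
  have s5 := hs 5
  rw [p1] at s1
  rw [p2] at s2
  rw [p3] at s3
  rw [p4] at s4
  rw [p5] at s5
  have e1 : g (((1 : Fin 6) : ℕ) • P) = g P := congrArg g (one_smul ℕ P)
  have e6 : g ((2 * ((3 : Fin 6) : ℕ)) • P) = g (5 • P) := ev 6 5 (by norm_num)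
  have e8 : g ((2 * ((4 : Fin 6) : ℕ)) • P) = g (3 • P) := ev 8 3 (by norm_num)
  have e10 : g ((2 * ((5 : Fin 6) : ℕ)) • P) = g P := by
    have := ev 10 1 (by norm_num)
    rw [one_smul] at this
    exact this
  rw [e1] at s1
  rw [e6] at s3
  rw [e8] at s4
  rw [e10] at s5
  refine HH_ind (KC k F) (K4M.lg x) (K4M.lg (x - 1)) (K4M.lg y) (K4M.lg (x + y)) ?_
    (g P) (g (2 • P)) (g (3 • P)) (g (4 • P)) (g (5 • P)) s1 s2 s4 s3 s5 a ha
  intro n1 n2 n3 n4 hn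
  have := units_indep (k := k) hE ht ![n1, n2, n3, n4] hn
  exact ⟨congrFun this 0, congrFun this 1, congrFun this 2, congrFun this 3⟩

omit hE hx hx1 hy hxy [DecidableEq F] in
lemma hk_span {S : Set (MK4.B2 F)} (X : MK4.B2 F) (hX : X ∈ Submodule.span ℚ S) (u : MK4.FT F) :
    (MK4.hk X u : MK4.HK F) ∈ Submodule.span ℚ {z | ∃ Y ∈ S, ∃ w : MK4.FT F, z = MK4.hk Y w} := by
  induction hX using Submodule.span_induction with
  | mem X h => exact Submodule.subset_span ⟨X, h, u, rfl⟩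
  | zero =>
    have : (MK4.hk 0 u : MK4.HK F) = 0 := hk_zero_left (F := F) u
    rw [this]
    exact Submodule.zero_mem _
  | add X Y _ _ hX hY =>
    have : (MK4.hk (X + Y) u : MK4.HK F) = MK4.hk X u + MK4.hk Y u :=
      hk_add_left (F := F) X Y u
    rw [this]
    exact Submodule.add_mem _ hX hY
  | smul q X _ hX =>
    have : (MK4.hk (q • X) u : MK4.HK F) = q • MK4.hk X u := hk_smul_left (F := F) q X u
    rw [this]
    exact Submodule.smul_mem _ _ hX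

omit hE hx hx1 hy hxy in
lemma th_mem {W : WeierstrassCurve.Affine F} {A : AddSubgroup W.Point} (t : A → A → MK4.B2 F)
    (P : A) (a b c : ℤ) : MK4.th t (a • P) (b • P) (c • P) ∈
      Submodule.span ℚ {X | ∃ m n : ℤ, X = t (m • P) (n • P)} := by
  have h : ∀ m n : ℤ, t (m • P) (n • P) ∈
      Submodule.span ℚ {X | ∃ m n : ℤ, X = t (m • P) (n • P)} :=
    fun m n => Submodule.subset_span ⟨m, n, rfl⟩
  unfold MK4.th
  simp only [← sub_smul, ← add_smul, ← neg_smul]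
  exact Submodule.add_mem _ (Submodule.add_mem _ (Submodule.add_mem _ (h _ _) (h _ _)) (h _ _))
    (h _ _)

/-- the symbol of a cross ratio in terms of the triangulation -/
lemma sy_CR_mem (t : AA x y hx hx1 hxy → AA x y hx hx1 hxy → MK4.B2 F)
    (ht : Tri (cr (A := AA x y hx hx1 hxy)) t) (a b c d : Fin 6) :
    (MK4.sy (K4C.CR x y a b c d) : MK4.B2 F) ∈ Submodule.span ℚ
      {X | ∃ m n : ℤ, X = t (m • PA x y hx hx1 hxy) (n • PA x y hx hx1 hxy)} := by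
  rw [← cr_eq_CR hE hx hx1 hy hxy, ht.tri]
  simp only [← natCast_zsmul]
  exact Submodule.sub_mem _ (Submodule.add_mem _ (Submodule.sub_mem _ (th_mem t _ _ _ _)
    (th_mem t _ _ _ _)) (th_mem t _ _ _ _)) (th_mem t _ _ _ _)

/-- decomposition -/
lemma decomp (t : AA x y hx hx1 hxy → AA x y hx hx1 hxy → MK4.B2 F)
    (ht : Tri (cr (A := AA x y hx hx1 hxy)) t) (Uc : F → Prop)
    (hU : ∀ f, Uc f → Uc (1 - f) → (∃ c : k, f = algebraMap k F c) ∨ K4C.IsCR x y f)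
    (z : MK4.HK F) (hz : z ∈ Submodule.span ℚ
      {z : MK4.HK F | ∃ f u : F, Uc f ∧ Uc (1 - f) ∧ z = MK4.hk (MK4.sy f) (MK4.lg u)}) :
    ∃ z1 z2 : MK4.HK F, z = z1 + z2 ∧
      z1 ∈ Submodule.span ℚ {z : MK4.HK F | ∃ (a b : ℤ) (u : MK4.FT F),
        z = MK4.hk (t (a • PA x y hx hx1 hxy) (b • PA x y hx hx1 hxy)) u} ∧
      z2 ∈ Submodule.span ℚ {z : MK4.HK F | ∃ (c : k) (u : F),
        z = MK4.hk (MK4.sy (algebraMap k F c)) (MK4.lg u)} := by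
  have h1 : z ∈ Submodule.span ℚ {z : MK4.HK F | ∃ (a b : ℤ) (u : MK4.FT F),
        z = MK4.hk (t (a • PA x y hx hx1 hxy) (b • PA x y hx hx1 hxy)) u} ⊔
      Submodule.span ℚ {z : MK4.HK F | ∃ (c : k) (u : F),
        z = MK4.hk (MK4.sy (algebraMap k F c)) (MK4.lg u)} := by
    refine (Submodule.span_le.mpr ?_) hz
    rintro w ⟨f, u, hf, hf1, rfl⟩
    rcases hU f hf hf1 with ⟨c, rfl⟩ | ⟨a, b, c, d, _, _, _, _, _, _, rfl⟩
    · exact Submodule.mem_sup_right (Submodule.subset_span ⟨c, u, rfl⟩)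
    · apply Submodule.mem_sup_left
      have h2 := hk_span _ (sy_CR_mem hE hx hx1 hy hxy t ht a b c d) (MK4.lg u)
      refine (Submodule.span_mono ?_) h2
      rintro w ⟨Y, ⟨m, n, rfl⟩, w', rfl⟩
      exact ⟨m, n, w', rfl⟩
  obtain ⟨z1, hz1, z2, hz2, rfl⟩ := Submodule.mem_sup.mp h1
  exact ⟨z1, z2, rfl, hz1, hz2⟩

/-- **The second clause.** -/
theorem clause2 [CharZero F] (htr : Transcendental k x) [Fintype (AA x y hx hx1 hxy)]
    {g : AA x y hx hx1 hxy → MK4.FT F} (hS : Siegel (A := AA x y hx hx1 hxy) g)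
    (hg : K4M.IsG4 (F := F) (AA x y hx hx1 hxy) g)
    (ht : Tri (cr (A := AA x y hx hx1 hxy)) (K4M.tA (AA x y hx hx1 hxy) :
      AA x y hx hx1 hxy → AA x y hx hx1 hxy → MK4.B2 F))
    (Uc : F → Prop)
    (hU : ∀ f, Uc f → Uc (1 - f) → (∃ c : k, f = algebraMap k F c) ∨ K4C.IsCR x y f)
    (z : MK4.HK F) (hz : z ∈ Submodule.span ℚ
      {z : MK4.HK F | ∃ f u : F, Uc f ∧ Uc (1 - f) ∧ z = MK4.hk (MK4.sy f) (MK4.lg u)})
    (hc : Closed z) :
    ∃ (r : ℚ) (z2 : MK4.HK F), z = r • MK4.hk (K4M.tA (AA x y hx hx1 hxy)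
        (PA x y hx hx1 hxy) (3 • PA x y hx hx1 hxy) : MK4.B2 F)
        (g (3 • PA x y hx hx1 hxy) - g (PA x y hx hx1 hxy)) + z2 ∧
      z2 ∈ Submodule.span ℚ {z : MK4.HK F | ∃ (c : k) (u : F),
        z = MK4.hk (MK4.sy (algebraMap k F c)) (MK4.lg u)} := by
  have hA : (Nat.card (AA x y hx hx1 hxy)).Coprime 6 := by
    rw [card_AA hE hx hx1 hy hxy]; norm_num
  obtain ⟨z1, z2, rfl, hz1, hz2⟩ := decomp hE hx hx1 hy hxy _ ht Uc hU z hz
  rw [closed_iff] at hc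
  obtain ⟨q, hq⟩ := complete_curve hA hg (PA x y hx hx1 hxy) (PA_eleven hE hx hx1 hy hxy)
    (fun a ha => hind (k := k) hE hx hx1 hy hxy htr hS hg a ha) z1 z2 hz1 (by
      refine (Submodule.span_mono ?_) hz2
      rintro w ⟨c, u, rfl⟩
      exact ⟨c, K4M.lg u, rfl⟩) hc
  refine ⟨q, z2, ?_, hz2⟩
  congr 1

end

end Pool.Agent.K4CC
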