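import Pool.Agent.Lib_helper2.K4C.Asm
import Pool.Agent.Lib_helper2.K4R.Main

set_option autoImplicit false

/-!
The clause with residues.
-/

namespace Pool.Agent.K4CC

open Pool.Agent.MK4 Pool.Agent.K4Par Pool.Agent.K4C
open scoped TensorProduct WithZero

section

variable {F : Type*} [Field F]

lemma lift_hkL' (z : K4M.B2 F ⊗[ℚ] K4M.FT F) :
    TensorProduct.lift (K4M.hkL F) z = (Submodule.Quotient.mk z : K4M.HK F) := by
  induction z using TensorProduct.induction_on with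
  | zero => rw [map_zero]; rfl
  | tmul x y => rfl
  | add x y hx hy => rw [map_add, hx, hy]; rfl

/-- linear maps on `H(F)` are determined by the values on the `{x} ⊗ u` -/
lemma hk_ext {M : Type*} [AddCommGroup M] [Module ℚ M] {R R' : K4M.HK F →ₗ[ℚ] M}
    (h : ∀ x u : F, u ≠ 0 → R (K4M.hk (K4M.sy x) (K4M.lg u)) =
      R' (K4M.hk (K4M.sy x) (K4M.lg u))) : R = R' := by
  have h1 : ∀ (x : F) (w : K4M.FT F), R (K4M.hk (K4M.sy x) w) = R' (K4M.hk (K4M.sy x) w) := by
    intro x w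
    obtain ⟨n, u, hn, hu, hw⟩ := exists_lg w
    have hn' : (n : ℚ) ≠ 0 := Nat.cast_ne_zero.mpr hn
    have : w = (n : ℚ)⁻¹ • K4M.lg u := by
      rw [← hw, smul_smul, inv_mul_cancel₀ hn', one_smul]
    rw [this, hk_smul_right, map_smul, map_smul, h x u hu]
  have h2 : R.comp (TensorProduct.lift (K4M.hkL F)) = R'.comp (TensorProduct.lift (K4M.hkL F)) := by
    apply TensorProduct.ext'
    intro X w
    have h3 : (LinearMap.comp R ((K4M.hkL F).flip w)) = LinearMap.comp R' ((K4M.hkL F).flip w) :=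
      b2_ext fun x => h1 x w
    exact LinearMap.congr_fun h3 X
  refine LinearMap.ext fun z => ?_
  obtain ⟨z', rfl⟩ := Submodule.Quotient.mk_surjective _ z
  have h4 := LinearMap.congr_fun h2 z'
  rw [LinearMap.comp_apply, LinearMap.comp_apply, lift_hkL'] at h4
  exact h4

lemma res_of_noRes (v : Valuation F ℤᵐ⁰) [Infinite (K4R.rf v)] (z : MK4.HK F) (h : NoRes v z) :
    K4R.resL v z = 0 := by
  obtain ⟨R, hR, hz⟩ := h
  have : R = K4R.resL v := by
    refine hk_ext fun x u hu => ?_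
    have h1 : (K4R.resL v (K4M.hk (K4M.sy x) (K4M.lg u)) : K4M.B2 (K4R.rf v)) =
        ((WithZero.log (v u) : ℤ) : ℚ) • K4R.sp v x := by
      rw [K4R.resL_hk, K4R.valL_lg v hu, K4R.spL_sy]
    exact (hR x u hu).trans h1.symm
  rw [← this]
  exact hz

end

section

variable {k F : Type*} [Field k] [Field F] [DecidableEq F] [Algebra k F] {x y : F}

omit [DecidableEq F] in
/-- `y` is algebraic over `k(x)` -/
lemma y_alg (hE : y ^ 2 + y = x ^ 3 - x ^ 2) :
    IsAlgebraic (IntermediateField.adjoin k {x}) y := by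
  let X : IntermediateField.adjoin k {x} := ⟨x, IntermediateField.mem_adjoin_simple_self k x⟩
  refine ⟨Polynomial.X ^ 2 + Polynomial.X - Polynomial.C (X ^ 3 - X ^ 2), ?_, ?_⟩
  · intro h
    have h1 := congrArg (fun p => Polynomial.coeff p 2) h
    simp only [Polynomial.coeff_sub, Polynomial.coeff_add, Polynomial.coeff_X_pow,
      Polynomial.coeff_X, Polynomial.coeff_zero] at h1
    rw [Polynomial.coeff_C_of_ne_zero (by norm_num)] at h1
    norm_num at h1
  · simp only [map_sub, map_add, map_pow, Polynomial.aeval_X, Polynomial.aeval_C]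
    show y ^ 2 + y - (x ^ 3 - x ^ 2) = 0
    rw [hE, sub_self]

variable (hE : y ^ 2 + y = x ^ 3 - x ^ 2) (hx : x ≠ 0) (hx1 : x - 1 ≠ 0) (hy : y ≠ 0)
  (hxy : x + y ≠ 0)

include hE hx hx1 hy hxy

/-- **The third clause.** -/
theorem clause3 [IsAlgClosed k] [CharZero k] [CharZero F] (htr : Transcendental k x)
    (hF : IntermediateField.adjoin k {x, y} = ⊤) [Fintype (AA x y hx hx1 hxy)]
    {g : AA x y hx hx1 hxy → MK4.FT F} (hS : Siegel (A := AA x y hx hx1 hxy) g)
    (hg : K4M.IsG4 (F := F) (AA x y hx hx1 hxy) g)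
    (ht : Tri (cr (A := AA x y hx hx1 hxy)) (K4M.tA (AA x y hx hx1 hxy) :
      AA x y hx hx1 hxy → AA x y hx hx1 hxy → MK4.B2 F))
    (Uc : F → Prop)
    (hU : ∀ f, Uc f → Uc (1 - f) → (∃ c : k, f = algebraMap k F c) ∨ K4C.IsCR x y f)
    (z : MK4.HK F) (hz : z ∈ Submodule.span ℚ
      {z : MK4.HK F | ∃ f u : F, Uc f ∧ Uc (1 - f) ∧ z = MK4.hk (MK4.sy f) (MK4.lg u)})
    (hc : Closed z) (hr : ∀ v : Valuation F ℤᵐ⁰,
      (∀ c : k, c ≠ 0 → v (algebraMap k F c) = 1) → NoRes v z) :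
    ∃ (r : ℚ) (z2 : MK4.HK F), z = r • MK4.hk (K4M.tA (AA x y hx hx1 hxy)
        (PA x y hx hx1 hxy) (3 • PA x y hx hx1 hxy) : MK4.B2 F)
        (g (3 • PA x y hx hx1 hxy) - g (PA x y hx hx1 hxy)) + z2 ∧
      z2 ∈ CC k F := by
  obtain ⟨r, z2, h1, h2⟩ := clause2 hE hx hx1 hy hxy htr hS hg ht Uc hU z hz hc
  refine ⟨r, z2, h1, ?_⟩
  have hA : (Nat.card (AA x y hx hx1 hxy)).Coprime 6 := by
    rw [card_AA hE hx hx1 hy hxy]; norm_num
  refine const_kill_all x y (y_alg hE) hF z2 ?_ ?_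
  · refine (Submodule.span_mono ?_) h2
    rintro w ⟨c, u, rfl⟩
    exact ⟨c, K4M.lg u, rfl⟩
  · intro v hv htv
    have h3 := res_of_noRes v z (hr v htv)
    have h4 := K4R.no_res hA hg (v := v) (by norm_num : Nat.Prime 11) (PA x y hx hx1 hxy)
      (PA_eleven hE hx hx1 hy hxy) 1 3
    rw [one_smul, ofNat_zsmul] at h4
    have h5 : K4R.resL v z = r • K4R.resL v (K4M.hk (K4M.tA (AA x y hx hx1 hxy)
        (PA x y hx hx1 hxy) (3 • PA x y hx hx1 hxy))
        (g (3 • PA x y hx hx1 hxy) - g (PA x y hx hx1 hxy))) + K4R.resL v z2 := by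
      rw [h1]
      exact (map_add (K4R.resL v) _ _).trans (congrArg (· + _) (map_smul (K4R.resL v) _ _))
    have h6 : K4R.resL v z = r • (0 : K4M.B2 (K4R.rf v)) + K4R.resL v z2 :=
      h5.trans (congrArg (fun w => r • w + K4R.resL v z2) h4)
    rw [h3, smul_zero, zero_add] at h6
    exact h6.symm

end

end Pool.Agent.K4CC
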