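import Pool.Agent.Lib_helper2.K4C.Asm2
import Pool.Agent.Lib_helper2.K4.Single
import Pool.Agent.Lib_helper24.K4C.FinE
import Pool.Agent.Lib_helper76.UE11.Ten2
import Pool.Agent.Lib_helper60.K4C.Disc
import Pool.Agent.Lib_helper60.K4C.TenUnits

set_option autoImplicit false

/-!
The class `ξ(P,3P)` is built on cuspidal units; cuspidal units.
-/

namespace Pool.Agent.K4CC

open Pool.Agent.MK4 Pool.Agent.K4Par Pool.Agent.K4C
open scoped TensorProduct WithZero

section bridge

variable {F : Type*} [Field F] [CharZero F] [DecidableEq F] {W : WeierstrassCurve.Affine F}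
  {A : AddSubgroup W.Point} [Fintype A]

omit [CharZero F] [Fintype A] in
lemma tri_iff {t : A → A → MK4.B2 F} :
    Tri cr t ↔ (K4Par.IsT (B := K4M.B2 F) t ∧
      ∀ a b c d : A, K4M.CA A a b c d = K4Par.CR (B := K4M.B2 F) t a b c d) := by
  constructor
  · rintro ⟨h1, h2, h3, h4⟩
    refine ⟨⟨h1, h2, h3⟩, fun a b c d => ?_⟩
    rw [← cr_eq]
    exact h4 a b c d
  · rintro ⟨⟨h1, h2, h3⟩, h4⟩
    refine ⟨h1, h2, h3, fun a b c d => ?_⟩
    rw [cr_eq]
    exact h4 a b c d

omit [CharZero F] in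
lemma siegel_iff (hA : (Nat.card A).Coprime 6) {g : A → MK4.FT F} :
    Siegel g ↔ K4M.IsG4 (F := F) A g := by
  have key : ∀ a : A, K4M.pc (a : W.Point) = ps (a : W.Point) := by
    intro a
    unfold K4M.pc
    by_cases h : (a : W.Point) + a = 0
    · have h0 : a = 0 := by
        apply K4M.inj_two hA
        show a + a = 0 + 0
        rw [add_zero]
        exact Subtype.ext h
      subst h0
      rw [if_pos h, ps_eq]; rfl
    · rw [if_neg h, ps_eq]
  have e4 : ∀ a : A, (4 : ℕ) • g a = (4 : ℚ) • g a := fun a =>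
    (ofNat_smul_eq_nsmul ℚ 4 (g a)).symm
  constructor
  · intro h a
    rw [key]
    have := h a
    rw [e4] at this
    exact this
  · intro h a
    have := h a
    rw [key] at this
    rw [e4]
    exact this

end bridge

section units

variable {k F : Type*} [Field k] [Field F] [Algebra k F] {x y : F}

/-- the cuspidal units, in terms of the monomials -/
lemma MU_iff (hE : y ^ 2 + y = x ^ 3 - x ^ 2) (hx : Transcendental k x) (f : F) :
    MU k x y f ↔ ∃ m : ℤ, IsMon k x y (f * K4C.hh x y ^ m) := by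
  unfold MU
  refine exists_congr fun m => ?_
  exact units_iff hE hx _

/-- the unit equation for the cuspidal units -/
theorem unit_eq [CharZero k] (hE : y ^ 2 + y = x ^ 3 - x ^ 2) (hx : Transcendental k x) (f : F)
    (hf : MU k x y f) (hg : MU k x y (1 - f)) :
    (∃ a : k, f = algebraMap k F a) ∨ IsCR x y f := by
  rw [MU_iff hE hx] at hf hg
  obtain ⟨m, hm⟩ := hf
  obtain ⟨m', hm'⟩ := hg
  have h0 := x_ne hx
  have h1 := x1_ne hx
  have h2 := y_ne hE hx
  have h3 := xy_ne hE hx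
  have hh0 : K4C.hh x y ≠ 0 := K4C.hh_ne hE hx
  have hG : UE11.Gen k x y := ⟨hE, (UE11.Tr_iff x).mpr hx⟩
  obtain ⟨c, e, hc, hfe⟩ := FC.isMon_iff h0 h1 h2 h3 hm
  obtain ⟨c', e', hc', hge⟩ := FC.isMon_iff h0 h1 h2 h3 hm'
  have e1 : f = algebraMap k F c * UE11.mon x y e * UE11.hh' x y ^ (-m) := by
    show f = algebraMap k F c * UE11.mon x y e * K4C.hh x y ^ (-m)
    rw [← hfe, mul_assoc, ← zpow_add₀ hh0, add_neg_cancel, zpow_zero, mul_one]
  have e2 : 1 - f = algebraMap k F c' * UE11.mon x y e' * UE11.hh' x y ^ (-m') := by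
    show 1 - f = algebraMap k F c' * UE11.mon x y e' * K4C.hh x y ^ (-m')
    rw [← hge, mul_assoc, ← zpow_add₀ hh0, add_neg_cancel, zpow_zero, mul_one]
  have hs : algebraMap k F c * UE11.mon x y e * UE11.hh' x y ^ (-m) +
      algebraMap k F c' * UE11.mon x y e' * UE11.hh' x y ^ (-m') = 1 := by
    rw [← e1, ← e2]; ring
  obtain ⟨hm0, hm0'⟩ := UE11.ten' hG hc hc' hs
  have m0 : m = 0 := by omega
  have m0' : m' = 0 := by omega
  subst m0; subst m0'
  rw [zpow_zero, mul_one] at hm hm'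
  exact FC.isCR_of_isMon hE hx hm hm'

lemma MU_of_mon (hE : y ^ 2 + y = x ^ 3 - x ^ 2) (hx : Transcendental k x) {f : F}
    (h : IsMon k x y f) : MU k x y f :=
  (MU_iff hE hx f).mpr ⟨0, by rwa [zpow_zero, mul_one]⟩

lemma MU_isCR (hE : y ^ 2 + y = x ^ 3 - x ^ 2) (hx : Transcendental k x) {f : F}
    (h : IsCR x y f) : MU k x y f ∧ MU k x y (1 - f) := by
  have h0 := x_ne hx
  have h1 := x1_ne hx
  have h2 := y_ne hE hx
  have h3 := xy_ne hE hx
  exact ⟨MU_of_mon hE hx (isCR_mon hE h0 h1 h2 h3 h),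
    MU_of_mon hE hx (isCR_mon hE h0 h1 h2 h3 (isCR_one_sub hE h0 h1 h2 h3 h))⟩

lemma MU_const (hE : y ^ 2 + y = x ^ 3 - x ^ 2) (hx : Transcendental k x) {c : k} (hc : c ≠ 0) :
    MU k x y (algebraMap k F c) :=
  MU_of_mon hE hx ⟨c, hc, 0, 0, 0, 0, by simp⟩

lemma MU_ne (hE : y ^ 2 + y = x ^ 3 - x ^ 2) (hx : Transcendental k x) {f : F}
    (h : MU k x y f) : f ≠ 0 := by
  obtain ⟨m, hm, _⟩ := h
  rintro rfl
  exact hm (zero_mul _)

/-- (C1) -/
theorem clause1 [CharZero k] (hE : y ^ 2 + y = x ^ 3 - x ^ 2) (hx : Transcendental k x) (f : F) :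
    (MU k x y f ∧ MU k x y (1 - f)) ↔
      (∃ c : k, c ≠ 0 ∧ c ≠ 1 ∧ f = algebraMap k F c) ∨ IsCR x y f := by
  constructor
  · rintro ⟨h1, h2⟩
    rcases unit_eq hE hx f h1 h2 with ⟨c, rfl⟩ | h
    · left
      refine ⟨c, ?_, ?_, rfl⟩
      · rintro rfl
        exact MU_ne hE hx h1 (map_zero _)
      · rintro rfl
        exact MU_ne hE hx h2 (by rw [map_one, sub_self])
    · exact Or.inr h
  · rintro (⟨c, h0, h1, rfl⟩ | h)
    · refine ⟨MU_const hE hx h0, ?_⟩
      have : (1 : F) - algebraMap k F c = algebraMap k F (1 - c) := by rw [map_sub, map_one]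
      rw [this]
      exact MU_const hE hx (fun h => h1 (sub_eq_zero.mp h).symm)
    · exact MU_isCR hE hx h

end units

end Pool.Agent.K4CC
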