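import Pool.Agent.Lib_helper2.K4C.Asm3

set_option autoImplicit false

/-!
The class `ξ(P,3P)` is in the span of the symbols built on cuspidal units.
-/

namespace Pool.Agent.K4CC

open Pool.Agent.MK4 Pool.Agent.K4Par Pool.Agent.K4C
open scoped TensorProduct WithZero

section xi

variable {k F : Type*} [Field k] [Field F] [DecidableEq F] [Algebra k F] {x y : F}

omit [DecidableEq F] in
lemma dv_ne_self {a b : Fin 6} (h : dv x y a b = 0) (h2 : a ≠ b → dv x y a b ≠ 0) : a = b := by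
  by_contra hab
  exact h2 hab h

variable (hE : y ^ 2 + y = x ^ 3 - x ^ 2) (hx : x ≠ 0) (hx1 : x - 1 ≠ 0) (hy : y ≠ 0)
  (hxy : x + y ≠ 0)

include hE hx hx1 hy hxy

omit [DecidableEq F] in
/-- the symbol of a cross ratio, distinct or not -/
lemma sy_CR (a b c d : Fin 6) : (MK4.sy (K4C.CR x y a b c d) : MK4.B2 F) = 0 ∨
    IsCR x y (K4C.CR x y a b c d) := by
  have s0 : (MK4.sy (0 : F) : MK4.B2 F) = 0 := K4M.sy_zero
  have s1 : (MK4.sy (1 : F) : MK4.B2 F) = 0 := K4M.sy_one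
  by_cases h1 : a = b
  · left; unfold K4C.CR; rw [h1, dv_self, zero_mul, zero_div, s0]
  by_cases h6 : c = d
  · left; unfold K4C.CR; rw [h6, dv_self, mul_zero, zero_div, s0]
  by_cases h2 : a = c
  · left; unfold K4C.CR; rw [h2, dv_self, zero_mul, div_zero, s0]
  by_cases h5 : b = d
  · left; unfold K4C.CR; rw [h5, dv_self, mul_zero, div_zero, s0]
  by_cases h3 : a = d
  · left
    subst h3
    have e : K4C.CR x y a b c a = 1 := by
      unfold K4C.CR
      rw [dv_swap (x := x) (y := y) a c, dv_swap (x := x) (y := y) a b]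
      have n1 := dv_ne hE hx hx1 hy hxy h1
      have n2 := dv_ne hE hx hx1 hy hxy h2
      field_simp
    rw [e, s1]
  by_cases h4 : b = c
  · left
    subst h4
    have e : K4C.CR x y a b b d = 1 := by
      unfold K4C.CR
      have n1 := dv_ne hE hx hx1 hy hxy h1
      have n2 := dv_ne hE hx hx1 hy hxy h5
      field_simp
    rw [e, s1]
  · right
    exact ⟨a, b, c, d, h1, h2, h3, h4, h5, h6, rfl⟩

/-- every element of the group is a multiple `± i P`, `0 ≤ i ≤ 5` -/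
lemma exists_idx (a : AA x y hx hx1 hxy) : ∃ i : Fin 6,
    a = (i : ℕ) • PA x y hx hx1 hxy ∨ a = -((i : ℕ) • PA x y hx hx1 hxy) := by
  have h11 : (11 : ℕ) • PA x y hx hx1 hxy = 0 := PA_eleven hE hx hx1 hy hxy
  obtain ⟨n, hn⟩ := AddSubgroup.mem_zmultiples_iff.mp a.2
  have ha : a = n • PA x y hx hx1 hxy := Subtype.ext hn.symm
  have h1 : (11 : ℤ) • PA x y hx hx1 hxy = 0 := by rw [← h11]; norm_cast
  have h2 : ∀ m : ℤ, n = m + 11 * (n / 11) + (n % 11 - m) := by intro m; omega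
  have h3 : a = (n % 11) • PA x y hx hx1 hxy := by
    rw [ha]
    conv_lhs => rw [← Int.emod_add_mul_ediv n 11]
    rw [add_smul, mul_comm, mul_smul, h1, smul_zero, add_zero]
  have h4 : n % 11 = 0 ∨ n % 11 = 1 ∨ n % 11 = 2 ∨ n % 11 = 3 ∨ n % 11 = 4 ∨ n % 11 = 5 ∨
      n % 11 = 6 ∨ n % 11 = 7 ∨ n % 11 = 8 ∨ n % 11 = 9 ∨ n % 11 = 10 := by omega
  have neg : ∀ (m : ℤ) (i : Fin 6), m + (i : ℕ) = 11 →
      m • PA x y hx hx1 hxy = -((i : ℕ) • PA x y hx hx1 hxy) := by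
    intro m i hm
    rw [eq_neg_iff_add_eq_zero, ← natCast_zsmul, ← add_smul, hm, h1]
  rcases h4 with h | h | h | h | h | h | h | h | h | h | h <;> rw [h3, h]
  · exact ⟨0, Or.inl (by simp)⟩
  · exact ⟨1, Or.inl (natCast_zsmul _ 1)⟩
  · exact ⟨2, Or.inl (natCast_zsmul _ 2)⟩
  · exact ⟨3, Or.inl (natCast_zsmul _ 3)⟩
  · exact ⟨4, Or.inl (natCast_zsmul _ 4)⟩
  · exact ⟨5, Or.inl (natCast_zsmul _ 5)⟩
  · exact ⟨5, Or.inr (neg 6 5 (by norm_num))⟩
  · exact ⟨4, Or.inr (neg 7 4 (by norm_num))⟩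
  · exact ⟨3, Or.inr (neg 8 3 (by norm_num))⟩
  · exact ⟨2, Or.inr (neg 9 2 (by norm_num))⟩
  · exact ⟨1, Or.inr (neg 10 1 (by norm_num))⟩

/-- the symbols of the cross ratios of the points of the group -/
lemma cr_cases (a b c d : AA x y hx hx1 hxy) : (cr a b c d : MK4.B2 F) = 0 ∨
    ∃ f, IsCR x y f ∧ (cr a b c d : MK4.B2 F) = MK4.sy f := by
  obtain ⟨i, hi⟩ := exists_idx hE hx hx1 hy hxy a
  obtain ⟨j, hj⟩ := exists_idx hE hx hx1 hy hxy b
  obtain ⟨l, hl⟩ := exists_idx hE hx hx1 hy hxy c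
  obtain ⟨n, hn⟩ := exists_idx hE hx hx1 hy hxy d
  have key : ∀ (a b : AA x y hx hx1 hxy) (i j : Fin 6),
      (a = (i : ℕ) • PA x y hx hx1 hxy ∨ a = -((i : ℕ) • PA x y hx hx1 hxy)) →
      (b = (j : ℕ) • PA x y hx hx1 hxy ∨ b = -((j : ℕ) • PA x y hx hx1 hxy)) →
      dx (a : (TW x y).Point) b = dv x y i j := by
    intro a b i j ha hb
    have h0 := dx_eq_dv hE hx hx1 hy hxy i j
    rw [dx_eq] at h0 ⊢
    rcases ha with rfl | rfl <;> rcases hb with rfl | rfl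
    · exact h0
    · rw [AddSubgroup.coe_neg, K4M.dx_neg_right]; exact h0
    · rw [AddSubgroup.coe_neg, K4M.dx_neg_left]; exact h0
    · rw [AddSubgroup.coe_neg, AddSubgroup.coe_neg, K4M.dx_neg_left, K4M.dx_neg_right]; exact h0
  have e : (cr a b c d : MK4.B2 F) = MK4.sy (K4C.CR x y i j l n) := by
    unfold cr K4C.CR
    rw [key a b i j hi hj, key c d l n hl hn, key a c i l hi hl, key b d j n hj hn]
  rcases sy_CR hE hx hx1 hy hxy i j l n with h | h
  · left; rw [e, h]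
  · right; exact ⟨_, h, e⟩

/-- `ξ(P,3P)` is built on cuspidal units -/
theorem xi_mem_Cusp [CharZero k] [CharZero F] (htr : Transcendental k x)
    [Fintype (AA x y hx hx1 hxy)] (a b : AA x y hx hx1 hxy) (w : MK4.FT F) :
    (MK4.hk (K4M.tA (AA x y hx hx1 hxy) a b : MK4.B2 F) w : MK4.HK F) ∈ Cusp k x y := by
  have hA : (Nat.card (AA x y hx hx1 hxy)).Coprime 6 := by
    rw [card_AA hE hx hx1 hy hxy]; norm_num
  have h2 := K4M.inj_two hA
  have h1 : (K4M.tA (AA x y hx hx1 hxy) a b : MK4.B2 F) ∈ Submodule.span ℚ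
      {X : MK4.B2 F | ∃ f : F, IsCR x y f ∧ X = MK4.sy f} := by
    have e : (K4M.tA (AA x y hx hx1 hxy) a b : MK4.B2 F) =
        - ((Fintype.card (AA x y hx hx1 hxy) : ℚ)⁻¹ • ∑ x', cr 0 x' (a - x') (b + x')) := by
      simp only [cr_eq]
      have hT : K4Par.IsT (B := K4M.B2 F) (K4M.tA (AA x y hx hx1 hxy)) := K4M.final_isT hA
      have hC := K4M.final_CR hA
      have h := K4Par.single_formula hT h2 hC a b
      exact h
    rw [e]
    apply Submodule.neg_mem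
    apply Submodule.smul_mem
    apply Submodule.sum_mem
    intro c _
    rcases cr_cases hE hx hx1 hy hxy 0 c (a - c) (b + c) with h | ⟨f, hf, h⟩
    · rw [h]; exact Submodule.zero_mem _
    · have h9 : (MK4.sy f : MK4.B2 F) ∈ Submodule.span ℚ
          {X : MK4.B2 F | ∃ f : F, IsCR x y f ∧ X = MK4.sy f} :=
        Submodule.subset_span ⟨f, hf, rfl⟩
      rw [h]
      exact h9
  have h3 := hk_span _ h1 w
  refine (Submodule.span_le.mpr ?_) h3
  rintro z ⟨Y, ⟨f, hf, rfl⟩, w', rfl⟩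
  obtain ⟨n, u, hn, hu, hw⟩ := exists_lg (F := F) w'
  have hn' : (n : ℚ) ≠ 0 := Nat.cast_ne_zero.mpr hn
  have e1 : (MK4.hk (MK4.sy f) w' : MK4.HK F) = (n : ℚ)⁻¹ • MK4.hk (MK4.sy f) (MK4.lg u) := by
    have h5 : (w' : MK4.FT F) = (n : ℚ)⁻¹ • MK4.lg u :=
      (inv_smul_smul₀ hn' w').symm.trans (congrArg ((n : ℚ)⁻¹ • ·) hw)
    rw [h5]
    exact hk_smul_right (F := F) _ _ _
  rw [SetLike.mem_coe, e1]
  refine Submodule.smul_mem _ _ (Submodule.subset_span ⟨f, u, ?_, ?_, rfl⟩)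
  · exact (MU_isCR hE htr hf).1
  · exact (MU_isCR hE htr hf).2

end xi

end Pool.Agent.K4CC
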