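import Pool.Agent.Lib_helper2.K4C.Asm4

set_option autoImplicit false

/-!
The final theorem.
-/

namespace Pool.Agent.K4CC

open Pool.Agent.MK4 Pool.Agent.K4Par Pool.Agent.K4C
open scoped TensorProduct WithZero

lemma sub_mem_aux {M : Type*} [AddCommGroup M] [Module ℚ M] {S : Submodule ℚ M} {z a b : M}
    (e : z = a + b) (h : b ∈ S) : z - a ∈ S := by
  rw [e, add_sub_cancel_left]
  exact h

theorem final {k F : Type*} [Field k] [Field F] [CharZero F] [DecidableEq F] [Algebra k F]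
    (x y : F) (hE : y ^ 2 + y = x ^ 3 - x ^ 2) (hx : Transcendental k x) :
    (TW x y).Δ = (x - 1) ^ 6 * y ^ 5 * (x + y) ^ 2 * MK4.hc x y / x ∧ (TW x y).Δ ≠ 0 ∧
    ∃ (A : AddSubgroup (TW x y).Point) (P : A) (g : A → MK4.FT F) (t : A → A → MK4.B2 F)
      (ξ : MK4.HK F),
      (∃ h, (P : (TW x y).Point) = .some 0 0 h) ∧ addOrderOf P = 11 ∧
      A = AddSubgroup.zmultiples (P : (TW x y).Point) ∧
      Siegel g ∧ (∀ g' : A → MK4.FT F, Siegel g' → g' = g) ∧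
      Tri cr t ∧ (∀ t' : A → A → MK4.B2 F, Tri cr t' → t' = t) ∧
      ξ = MK4.hk (t P (3 • P)) (g (3 • P) - g P) ∧
      ξ ∈ Cusp k x y ∧ Closed ξ ∧
      (∀ v : Valuation F ℤᵐ⁰, Infinite (RF v) → NoRes v ξ) ∧
      (∀ f : F, (MU k x y f ∧ MU k x y (1 - f)) ↔
        (∃ c : k, c ≠ 0 ∧ c ≠ 1 ∧ f = algebraMap k F c) ∨
        ∃ a b c d : Fin 6, a ≠ b ∧ a ≠ c ∧ a ≠ d ∧ b ≠ c ∧ b ≠ d ∧ c ≠ d ∧
          f = crf ((a : ℕ) • (P : (TW x y).Point)) ((b : ℕ) • (P : (TW x y).Point))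
            ((c : ℕ) • (P : (TW x y).Point)) ((d : ℕ) • (P : (TW x y).Point))) ∧
      (∀ z ∈ Cusp k x y, Closed z → ∃ r : ℚ, z - r • ξ ∈ Cst k F) ∧
      (IsAlgClosed k → IntermediateField.adjoin k {x, y} = ⊤ → ∀ z ∈ Cusp k x y, Closed z →
        (∀ v : Valuation F ℤᵐ⁰, (∀ c : k, c ≠ 0 → v (algebraMap k F c) = 1) → NoRes v z) →
        ∃ r : ℚ, z - r • ξ ∈ Cst₀ k F) ∧
      (∀ f : F, MU ℚ x y f ↔
        f ≠ 0 ∧ f ∈ Algebra.adjoin ℚ {x, y, (x * (x - 1) * MK4.hc x y)⁻¹} ∧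
        f⁻¹ ∈ Algebra.adjoin ℚ {x, y, (x * (x - 1) * MK4.hc x y)⁻¹}) := by
  have hck : CharZero k := by
    refine ⟨fun m n h => ?_⟩
    have h1 := congrArg (algebraMap k F) h
    rw [map_natCast, map_natCast] at h1
    exact Nat.cast_injective h1
  have h0 := x_ne hx
  have h1 := x1_ne hx
  have h2 := y_ne hE hx
  have h3 := xy_ne hE hx
  have hfin : Finite (AA x y h0 h1 h3) := finite_AA hE h0 h1 h2 h3
  have : Fintype (AA x y h0 h1 h3) := Fintype.ofFinite _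
  have hA : (Nat.card (AA x y h0 h1 h3)).Coprime 6 := by
    rw [card_AA hE h0 h1 h2 h3]; norm_num
  have hi2 := K4M.inj_two hA
  obtain ⟨g, hg, hu⟩ := K4M.siegel_all (AA x y h0 h1 h3)
  have hS : Siegel (A := AA x y h0 h1 h3) g := (siegel_iff hA).mpr hg
  have hT : Tri (cr (A := AA x y h0 h1 h3)) (K4M.tA (AA x y h0 h1 h3) :
      AA x y h0 h1 h3 → AA x y h0 h1 h3 → MK4.B2 F) :=
    tri_iff.mpr ⟨K4M.final_isT hA, K4M.final_CR hA⟩
  have htq : Transcendental ℚ x := by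
    intro h
    apply hx
    have : Algebra ℚ k := DivisionRing.toRatAlgebra
    have : IsScalarTower ℚ k F := IsScalarTower.of_algebraMap_eq' (by ext; simp)
    exact h.tower_top (A := F) k
  refine ⟨disc_eq hE h0 h3, disc_ne hE hx, AA x y h0 h1 h3, PA x y h0 h1 h3, g,
    K4M.tA (AA x y h0 h1 h3),
    MK4.hk (K4M.tA (AA x y h0 h1 h3) (PA x y h0 h1 h3) (3 • PA x y h0 h1 h3) : MK4.B2 F)
      (g (3 • PA x y h0 h1 h3) - g (PA x y h0 h1 h3)), ⟨_, rfl⟩, ?_, rfl, hS,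
    fun g' hg' => hu g' ((siegel_iff hA).mp hg'), hT, ?_, rfl, ?_, ?_, ?_, ?_, ?_, ?_, ?_⟩
  · rw [← AddSubgroup.addOrderOf_coe]
    exact addOrderOf_PP hE h0 h1 h2 h3
  · intro t' ht'
    obtain ⟨ht', hC'⟩ := tri_iff.mp ht'
    funext a b
    exact (K4Par.single_formula ht' hi2 hC' a b).trans
      (K4Par.single_formula (K4M.final_isT hA) hi2 (K4M.final_CR hA) a b).symm
  · exact xi_mem_Cusp hE h0 h1 h2 h3 hx _ _ _
  · exact (closed_iff _).mpr (K4M.final_closed hA hg _ _)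
  · intro v hv
    have : Infinite (K4R.rf v) := hv
    refine ⟨K4R.resL v, fun x u hu => ?_, ?_⟩
    · have h1 : (K4R.resL v (K4M.hk (K4M.sy x) (K4M.lg u)) : K4M.B2 (K4R.rf v)) =
          ((WithZero.log (v u) : ℤ) : ℚ) • K4R.sp v x := by
        rw [K4R.resL_hk, K4R.valL_lg v hu, K4R.spL_sy]
      exact h1
    · have h4 := K4R.no_res hA hg (v := v) (by norm_num : Nat.Prime 11) (PA x y h0 h1 h3)
        (PA_eleven hE h0 h1 h2 h3) 1 3
      rw [one_smul, ofNat_zsmul] at h4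
      exact h4
  · intro f
    rw [clause1 hE hx f]
    refine or_congr Iff.rfl ?_
    unfold IsCR
    have e : ∀ a b c d : Fin 6, crf ((a : ℕ) • ((PA x y h0 h1 h3 : AA x y h0 h1 h3) :
        (TW x y).Point)) ((b : ℕ) • ((PA x y h0 h1 h3 : AA x y h0 h1 h3) : (TW x y).Point))
        ((c : ℕ) • ((PA x y h0 h1 h3 : AA x y h0 h1 h3) : (TW x y).Point))
        ((d : ℕ) • ((PA x y h0 h1 h3 : AA x y h0 h1 h3) : (TW x y).Point)) =
        K4C.CR x y a b c d := by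
      intro a b c d
      have k := dx_eq_dv hE h0 h1 h2 h3
      unfold crf K4C.CR
      rw [← k a b, ← k c d, ← k a c, ← k b d]
      rfl
    simp only [e]
  · intro z hz hc
    obtain ⟨r, z2, e, h⟩ := clause2 hE h0 h1 h2 h3 hx hS hg hT (MU k x y)
      (fun f hf hg => unit_eq hE hx f hf hg) z hz hc
    exact ⟨r, sub_mem_aux e h⟩
  · intro hk hF z hz hc hr
    obtain ⟨r, z2, e, h⟩ := clause3 hE h0 h1 h2 h3 hx hF hS hg hT (MU k x y)
      (fun f hf hg => unit_eq hE hx f hf hg) z hz hc hr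
    refine ⟨r, sub_mem_aux e ?_⟩
    refine (Submodule.span_mono ?_) h
    rintro w ⟨c, κ, _, rfl⟩
    exact ⟨c, κ, rfl⟩
  · intro f
    rw [MU_iff hE htq]
    exact (units10_iff hE htq f).symm

end Pool.Agent.K4CC
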