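import Mathlib

set_option autoImplicit false

/-!
Discrete valuations of a function field in one variable.
-/

namespace Pool.Agent.K4CC

open scoped WithZero
open IntermediateField IntermediateField.algebraAdjoinAdjoin

section alg

variable {k F : Type*} [Field k] [Field F] [Algebra k F]

/-- `F` is algebraic over `k(t)` for every transcendental `t`, if it is algebraic over some
`k(x)`. -/
theorem isAlg_adjoin (x : F) (hF : Algebra.IsAlgebraic (adjoin k {x}) F) (t : F)
    (ht : Transcendental k t) : Algebra.IsAlgebraic (adjoin k {t}) F := by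
  have h1 : Algebra.IsAlgebraic (Algebra.adjoin k {x}) F :=
    Algebra.IsAlgebraic.trans (Algebra.adjoin k {x}) (adjoin k {x}) F
  have h2 : Algebra.trdeg k F ≤ 1 := by
    have := Algebra.IsAlgebraic.trdeg_le_cardinalMk k ({x} : Set F)
    rwa [Cardinal.mk_singleton] at this
  have h3 : AlgebraicIndependent k (fun _ : Unit => t) := algebraicIndependent_unique_type_iff.mpr ht
  have h4 : IsTranscendenceBasis k (fun _ : Unit => t) := by
    refine h3.isTranscendenceBasis_of_lift_trdeg_le_of_finite ?_
    simpa using h2
  have h5 := h4.isAlgebraic_field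
  have h6 : Set.range (fun _ : Unit => t) = {t} := Set.range_const
  rw [h6] at h5
  exact h5

/-- `k(x,y)` is algebraic over `k(x)` if `y` is. -/
theorem isAlg_gen (x y : F) (hy : IsAlgebraic (adjoin k {x}) y) (hF : adjoin k {x, y} = ⊤) :
    Algebra.IsAlgebraic (adjoin k {x}) F := by
  have h1 : Algebra.IsAlgebraic (adjoin k {x}) (adjoin (adjoin k {x}) {y}) :=
    IntermediateField.isAlgebraic_adjoin_simple hy.isIntegral
  have h2 : adjoin (adjoin k {x}) {y} = ⊤ := by
    rw [eq_top_iff]
    intro z _
    have h3 : (adjoin k {x, y} : IntermediateField k F) ≤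
        (adjoin (adjoin k {x}) {y}).restrictScalars k := by
      rw [adjoin_le_iff]
      rintro w (rfl | hw)
      · have : w ∈ adjoin k {w} := mem_adjoin_simple_self k w
        exact (adjoin (adjoin k {w}) {y}).algebraMap_mem ⟨w, this⟩
      · rw [Set.mem_singleton_iff] at hw
        subst hw
        exact mem_adjoin_simple_self _ w
    have h4 : z ∈ (adjoin k {x, y} : IntermediateField k F) := by rw [hF]; trivial
    exact h3 h4
  rw [h2] at h1
  exact ⟨fun z => (h1.isAlgebraic ⟨z, trivial⟩).algebraMap (A := F)⟩

end alg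

section place

lemma mem_adj {k F : Type*} [Field k] [Field F] [Algebra k F] (x y : F)
    (hF : (adjoin k {x, y} : IntermediateField k F) = ⊤) (K : IntermediateField k F) (z : F) :
    z ∈ adjoin K ({x, y} : Set F) := by
  have h3 : (adjoin k {x, y} : IntermediateField k F) ≤
      (adjoin K ({x, y} : Set F)).restrictScalars k := by
    rw [adjoin_le_iff]
    intro w hw
    have : w ∈ adjoin K ({x, y} : Set F) := IntermediateField.subset_adjoin K ({x, y} : Set F) hw
    exact this
  have h4 : z ∈ (adjoin k {x, y} : IntermediateField k F) := by rw [hF]; trivial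
  exact h3 h4

lemma fin_gen {k F : Type*} [Field k] [Field F] [Algebra k F] (x y : F)
    (hF : (adjoin k {x, y} : IntermediateField k F) = ⊤) (K : IntermediateField k F)
    (hA : Algebra.IsAlgebraic K F) : FiniteDimensional K F := by
  have h1 : FiniteDimensional K (adjoin K ({x, y} : Set F)) :=
    finiteDimensional_adjoin fun z _ => (hA.isAlgebraic z).isIntegral
  exact Module.Finite.of_surjective (adjoin K ({x, y} : Set F)).val.toLinearMap
    (fun z => ⟨⟨z, mem_adj x y hF K z⟩, rfl⟩)

variable {k F : Type*} [Field k] [CharZero k] [Field F] [Algebra k F]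

/-- a zero of a transcendental element -/
theorem exists_zero (x y : F) (hy : IsAlgebraic (adjoin k {x}) y) (hF : adjoin k {x, y} = ⊤)
    (t : F) (htr : Transcendental k t) :
    ∃ v : Valuation F ℤᵐ⁰, (∀ c : k, c ≠ 0 → v (algebraMap k F c) = 1) ∧ v t < 1 := by
  have : CharZero F := charZero_of_injective_algebraMap (algebraMap k F).injective
  have ht0 : t ≠ 0 := by
    rintro rfl
    exact htr (isAlgebraic_zero)
  have hx := isAlg_gen x y hy hF
  have hA := isAlg_adjoin x hx t htr
  -- the base ring is a principal ideal domain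
  have hpid : IsPrincipalIdealRing (Algebra.adjoin k {t}) := by
    have e := Algebra.adjoin_singleton_eq_range_aeval k t
    rw [e]
    exact IsPrincipalIdealRing.of_surjective (Polynomial.aeval t).rangeRestrict.toRingHom
      (Polynomial.aeval t).rangeRestrict_surjective
  have hded : IsDedekindDomain (Algebra.adjoin k {t}) := inferInstance
  have hfin : FiniteDimensional (adjoin k {t}) F := fin_gen x y hF _ hA
  let C := integralClosure (Algebra.adjoin k {t}) F
  have hC : IsDedekindDomain C :=
    IsIntegralClosure.isDedekindDomain (Algebra.adjoin k {t}) (adjoin k {t}) F C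
  have hCF : IsFractionRing C F :=
    IsIntegralClosure.isFractionRing_of_finite_extension (Algebra.adjoin k {t}) (adjoin k {t}) F C
  let t' : C := algebraMap (Algebra.adjoin k {t}) C ⟨t, Algebra.self_mem_adjoin_singleton k t⟩
  have ht' : algebraMap C F t' = t := rfl
  have hnu : t' ∈ nonunits C := by
    intro hu
    obtain ⟨s, hs⟩ := hu.exists_right_inv
    have hs' : t * (s : F) = 1 := congrArg Subtype.val hs
    have hsf : (s : F) = t⁻¹ := eq_inv_of_mul_eq_one_right hs'
    have hint : IsIntegral (Algebra.adjoin k {t}) t⁻¹ := by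
      rw [← hsf]
      exact s.2
    have hfm : t⁻¹ ∈ adjoin k {t} := inv_mem (mem_adjoin_simple_self k t)
    have hint' : IsIntegral (Algebra.adjoin k {t}) (⟨t⁻¹, hfm⟩ : adjoin k {t}) := by
      have := (isIntegral_algebraMap_iff (R := Algebra.adjoin k {t}) (A := adjoin k {t})
        (B := F) (FaithfulSMul.algebraMap_injective _ _)
        (x := (⟨t⁻¹, hfm⟩ : adjoin k {t}))).mp hint
      exact this
    obtain ⟨⟨p, hp⟩, hpf⟩ := IsIntegrallyClosed.isIntegral_iff.mp hint'
    have hpf' : p = t⁻¹ := congrArg Subtype.val hpf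
    have hp2 := hp
    rw [Algebra.adjoin_singleton_eq_range_aeval] at hp2
    obtain ⟨P, hP⟩ := hp2
    have hP' : Polynomial.aeval t P = t⁻¹ := by rw [← hpf']; exact hP
    have h0 : Polynomial.aeval t (Polynomial.X * P - 1) = 0 := by
      rw [map_sub, map_mul, Polynomial.aeval_X, hP', map_one, mul_inv_cancel₀ ht0, sub_self]
    have h1 : (Polynomial.X * P - 1 : Polynomial k) = 0 := by
      by_contra h
      exact htr ⟨_, h, h0⟩
    have h2 := congrArg (Polynomial.eval 0) h1
    simp at h2
  obtain ⟨I, hI, htI⟩ := exists_max_ideal_of_mem_nonunits hnu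
  have hI0 : I ≠ ⊥ := by
    rintro rfl
    rw [Ideal.mem_bot] at htI
    have h5 := congrArg (algebraMap C F) htI
    have h6 : t = algebraMap C F 0 := h5
    exact ht0 (h6.trans (map_zero _))
  let P : IsDedekindDomain.HeightOneSpectrum C := ⟨I, hI.isPrime, hI0⟩
  refine ⟨P.valuation F, fun c hc => ?_, ?_⟩
  · have h1 : ∀ c : k, P.valuation F (algebraMap k F c) ≤ 1 := by
      intro c
      have : algebraMap k F c = algebraMap C F (algebraMap k C c) := rfl
      rw [this]
      exact P.valuation_le_one _
    have h2 := h1 c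
    have h3 := h1 c⁻¹
    rw [map_inv₀, map_inv₀] at h3
    have h4 : P.valuation F (algebraMap k F c) ≠ 0 := by
      rw [ne_eq, map_eq_zero, map_eq_zero]; exact hc
    exact le_antisymm h2 ((inv_le_one₀ (zero_lt_iff.mpr h4)).mp h3)
  · exact (P.valuation_lt_one_iff_mem t').mpr htI

/-- **Existence of places**: every transcendental element of a function field has a pole. -/
theorem exists_place (x y : F) (hy : IsAlgebraic (adjoin k {x}) y) (hF : adjoin k {x, y} = ⊤)
    (f : F) (hf : Transcendental k f) :
    ∃ v : Valuation F ℤᵐ⁰, (∀ c : k, c ≠ 0 → v (algebraMap k F c) = 1) ∧ 1 < v f := by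
  obtain ⟨v, h1, h2⟩ := exists_zero x y hy hF f⁻¹
    (fun h => hf (by rw [← inv_inv f]; exact h.inv))
  refine ⟨v, h1, ?_⟩
  have hf0 : f ≠ 0 := by
    rintro rfl
    exact hf (isAlgebraic_zero)
  rw [map_inv₀] at h2
  have h4 : v f ≠ 0 := by
    rw [ne_eq, map_eq_zero]; exact hf0
  exact (inv_lt_one₀ (zero_lt_iff.mpr h4)).mp h2

end place

end Pool.Agent.K4CC
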