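import Pool.Agent.Lib_helper2.K4R.Res
import Pool.Agent.Lib_helper60.K4M.Main

set_option autoImplicit false

/-!
Residues kill the constants.
-/

namespace Pool.Agent.K4CC

open K4M Pool.Agent.K4R
open scoped TensorProduct WithZero

section mapB

variable {k L : Type*} [Field k] [Field L] (f : k →+* L)

/-- functoriality of `B₂` -/
noncomputable def mapB : B2 k →ₗ[ℚ] B2 L :=
  Submodule.mapQ _ _ (Finsupp.lmapDomain ℚ ℚ f) (by
    rw [Submodule.span_le]
    have e : ∀ x : k, Finsupp.lmapDomain ℚ ℚ f (bs x) = bs (f x) := by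
      intro x
      exact Finsupp.mapDomain_single
    rintro z (rfl | rfl | ⟨x, y, hx0, hx1, hy0, hy1, hxy, rfl⟩)
    · rw [SetLike.mem_coe, Submodule.mem_comap, e, map_zero]
      exact Submodule.subset_span (Or.inl rfl)
    · rw [SetLike.mem_coe, Submodule.mem_comap, e, map_one]
      exact Submodule.subset_span (Or.inr (Or.inl rfl))
    · rw [SetLike.mem_coe, Submodule.mem_comap]
      refine Submodule.subset_span (Or.inr (Or.inr ⟨f x, f y, ?_, ?_, ?_, ?_, ?_, ?_⟩))
      · exact (map_ne_zero f).mpr hx0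
      · exact fun h => hx1 (f.injective (by rw [h, map_one]))
      · exact (map_ne_zero f).mpr hy0
      · exact fun h => hy1 (f.injective (by rw [h, map_one]))
      · exact fun h => hxy (f.injective h)
      · unfold fiveTerm
        rw [map_add, map_sub, map_add, map_sub, e, e, e, e, e]
        simp only [map_div₀, map_sub, map_one, map_inv₀])

lemma mapB_sy (c : k) : mapB f (sy c) = sy (f c) := by
  unfold mapB sy
  rw [Submodule.mapQ_apply]
  congr 1
  exact Finsupp.mapDomain_single

end mapB

lemma b2_ext {k : Type*} [Field k] {M : Type*} [AddCommGroup M] [Module ℚ M]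
    {E E' : B2 k →ₗ[ℚ] M} (h : ∀ x : k, E (sy x) = E' (sy x)) : E = E' := by
  refine LinearMap.ext fun z => ?_
  obtain ⟨v, rfl⟩ := Submodule.Quotient.mk_surjective _ z
  induction v using Finsupp.induction_linear with
  | zero => exact (map_zero E).trans (map_zero E').symm
  | add u v hu hv =>
    rw [Submodule.Quotient.mk_add, map_add, map_add, hu, hv]
  | single x q =>
    have : (Finsupp.single x q : k →₀ ℚ) = q • bs x := by
      unfold bs
      rw [Finsupp.smul_single, smul_eq_mul, mul_one]
    rw [this, Submodule.Quotient.mk_smul, map_smul, map_smul]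
    exact congrArg (q • ·) (h x)

section kill

variable {k F : Type*} [Field k] [Field F] [Algebra k F] (v : Valuation F ℤᵐ⁰)
  (hv : ∀ c : k, c ≠ 0 → v (algebraMap k F c) = 1)

include hv in
lemma alg_mem (c : k) : algebraMap k F c ∈ v.valuationSubring := by
  rw [mem_iff]
  by_cases h : c = 0
  · rw [h, map_zero, map_zero]; exact zero_le_one
  · exact (hv c h).le

/-- the constants in the residue field -/
noncomputable def toRF : k →+* rf v :=
  (IsLocalRing.residue v.valuationSubring).comp
    ((algebraMap k F).codRestrict v.valuationSubring.toSubring (alg_mem v hv))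

lemma toRF_apply (c : k) : toRF v hv c =
    IsLocalRing.residue v.valuationSubring ⟨algebraMap k F c, alg_mem v hv c⟩ := rfl

lemma toRF_surj (hs : ∀ f, v f = 1 → ∃ c : k, v (f - algebraMap k F c) < 1) :
    Function.Surjective (toRF v hv) := by
  intro z
  obtain ⟨⟨f, hf⟩, rfl⟩ := IsLocalRing.residue_surjective z
  rcases lt_or_eq_of_le ((mem_iff v).mp hf) with h | h
  · refine ⟨0, ?_⟩
    rw [map_zero]
    exact ((res_zero_iff v hf).mpr h).symm
  · obtain ⟨c, hc⟩ := hs f h
    refine ⟨c, ?_⟩
    rw [toRF_apply]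
    exact (res_eq v hf (alg_mem v hv c) hc).symm

include hv in
lemma infinite_rf [Infinite k] : Infinite (rf v) := Infinite.of_injective _ (toRF v hv).injective

include hv in
/-- a retraction of the residue map -/
lemma exists_retract [Infinite k] [Infinite (rf v)]
    (hs : ∀ f, v f = 1 → ∃ c : k, v (f - algebraMap k F c) < 1) :
    ∃ ρ : HK F →ₗ[ℚ] B2 k, (∀ z, resL v z = 0 → ρ z = 0) ∧
      ∀ (C : B2 k) (u : FT F), ρ (hk (mapB (algebraMap k F) C) u) = valL v u • C := by
  let e : k ≃+* rf v := RingEquiv.ofBijective (toRF v hv) ⟨(toRF v hv).injective, toRF_surj v hv hs⟩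
  refine ⟨(mapB (e.symm : rf v →+* k)).comp (resL v), fun z hz => ?_, fun C u => ?_⟩
  · rw [LinearMap.comp_apply, hz, map_zero]
  · rw [LinearMap.comp_apply, resL_hk, map_smul]
    congr 1
    have : ((mapB (e.symm : rf v →+* k)).comp (spL v)).comp (mapB (algebraMap k F)) =
        LinearMap.id := by
      refine b2_ext fun c => ?_
      rw [LinearMap.comp_apply, LinearMap.comp_apply, mapB_sy, spL_sy,
        sp_mem v (alg_mem v hv c), mapB_sy, LinearMap.id_apply]
      congr 1
      exact e.symm_apply_apply c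
    exact LinearMap.congr_fun this C

end kill

section kill2

variable {k F : Type*} [Field k] [Field F] [Algebra k F]

lemma hk_zero_left (u : FT F) : (hk (0 : B2 F) u : HK F) = 0 := by
  have := (hkL F).map_zero
  exact LinearMap.congr_fun this u

lemma hk_add_left (a b : B2 F) (u : FT F) : (hk (a + b) u : HK F) = hk a u + hk b u :=
  LinearMap.congr_fun ((hkL F).map_add a b) u

lemma hk_smul_left (q : ℚ) (a : B2 F) (u : FT F) : (hk (q • a) u : HK F) = q • hk a u :=
  LinearMap.congr_fun ((hkL F).map_smul q a) u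

lemma hk_add_right (a : B2 F) (u w : FT F) : (hk a (u + w) : HK F) = hk a u + hk a w :=
  (hkL F a).map_add u w

lemma hk_smul_right (q : ℚ) (a : B2 F) (u : FT F) : (hk a (q • u) : HK F) = q • hk a u :=
  (hkL F a).map_smul q u

/-- the elements `{c} ⊗ κ` -/
noncomputable def CC (k F : Type*) [Field k] [Field F] [Algebra k F] : Submodule ℚ (HK F) :=
  Submodule.span ℚ {z | ∃ c κ : k, κ ≠ 0 ∧ z = hk (sy (algebraMap k F c)) (lg (algebraMap k F κ))}

lemma lg_zpow {r : F} (hr : r ≠ 0) (n : ℤ) : lg (r ^ n) = (n : ℚ) • lg r := by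
  obtain ⟨m, rfl | rfl⟩ := n.eq_nat_or_neg
  · rw [zpow_natCast, lg_pow hr, Int.cast_natCast]
  · rw [zpow_neg, zpow_natCast, lg_inv, lg_pow hr, Int.cast_neg, Int.cast_natCast, neg_smul]

lemma lg_prod' {ι : Type*} (s : Finset ι) (f : ι → F) (hf : ∀ i ∈ s, f i ≠ 0) :
    lg (∏ i ∈ s, f i) = ∑ i ∈ s, lg (f i) := by
  classical
  induction s using Finset.induction_on with
  | empty => rw [Finset.prod_empty, Finset.sum_empty, lg_one]
  | insert a s ha ih =>
    rw [Finset.prod_insert ha, Finset.sum_insert ha, lg_mul (hf a (Finset.mem_insert_self a s))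
      (Finset.prod_ne_zero_iff.mpr fun i hi => hf i (Finset.mem_insert_of_mem hi)),
      ih fun i hi => hf i (Finset.mem_insert_of_mem hi)]

/-- **No residues, no constants**: an element of the span of the `{c} ⊗ κ ∏ b_j^{e_j}` without
residues is in the span of the `{c} ⊗ κ`. -/
theorem const_kill [Infinite k] {ι κ : Type*} [Fintype ι] (b : ι → F) (hb : ∀ j, b j ≠ 0)
    (v : κ → Valuation F ℤᵐ⁰) [∀ i, Infinite (rf (v i))]
    (hv : ∀ i (c : k), c ≠ 0 → v i (algebraMap k F c) = 1)
    (hs : ∀ i f, v i f = 1 → ∃ c : k, v i (f - algebraMap k F c) < 1)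
    (hM : ∀ a : ι → ℚ, (∀ i, ∑ j, ((WithZero.log (v i (b j)) : ℤ) : ℚ) * a j = 0) → a = 0)
    (x : HK F)
    (hx : x ∈ Submodule.span ℚ {z : HK F | ∃ (c d : k) (e : ι → ℤ), d ≠ 0 ∧
      z = hk (sy (algebraMap k F c)) (lg (algebraMap k F d * ∏ j, b j ^ e j))})
    (h0 : ∀ i, resL (v i) x = 0) : x ∈ CC k F := by
  have h1 : ∃ (C : ι → B2 k) (y : HK F), y ∈ CC k F ∧
      x = ∑ j, hk (mapB (algebraMap k F) (C j)) (lg (b j)) + y := by
    clear h0
    induction hx using Submodule.span_induction with
    | mem z hz =>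
      obtain ⟨c, d, e, hd, rfl⟩ := hz
      refine ⟨fun j => ((e j : ℤ) : ℚ) • sy c, hk (sy (algebraMap k F c)) (lg (algebraMap k F d)),
        Submodule.subset_span ⟨c, d, hd, rfl⟩, ?_⟩
      have hd' : algebraMap k F d ≠ 0 := (map_ne_zero _).mpr hd
      have hp : ∀ j ∈ Finset.univ, b j ^ e j ≠ 0 := fun j _ => zpow_ne_zero _ (hb j)
      rw [lg_mul hd' (Finset.prod_ne_zero_iff.mpr hp), lg_prod' _ _ hp, hk_add_right, add_comm]
      congr 1
      show hkL F _ _ = _
      rw [map_sum]
      refine Finset.sum_congr rfl fun j _ => ?_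
      rw [lg_zpow (hb j), map_smul, map_smul, mapB_sy, hk_smul_left]
      rfl
    | zero =>
      refine ⟨0, 0, Submodule.zero_mem _, ?_⟩
      rw [add_zero]
      symm
      refine Finset.sum_eq_zero fun j _ => ?_
      rw [Pi.zero_apply, map_zero, hk_zero_left]
    | add x y _ _ hx hy =>
      obtain ⟨C, z, hz, rfl⟩ := hx
      obtain ⟨C', z', hz', rfl⟩ := hy
      refine ⟨C + C', z + z', Submodule.add_mem _ hz hz', ?_⟩
      simp only [Pi.add_apply, map_add, hk_add_left, Finset.sum_add_distrib]
      abel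
    | smul q x _ hx =>
      obtain ⟨C, z, hz, rfl⟩ := hx
      refine ⟨q • C, q • z, Submodule.smul_mem _ _ hz, ?_⟩
      simp only [Pi.smul_apply, map_smul, hk_smul_left, Finset.smul_sum, smul_add]
  obtain ⟨C, y, hy, rfl⟩ := h1
  have hy0 : ∀ i, resL (v i) y = 0 := by
    intro i
    clear h0 hx
    induction hy using Submodule.span_induction with
    | mem z hz =>
      obtain ⟨c, d, hd, rfl⟩ := hz
      rw [resL_hk, valL_lg _ ((map_ne_zero _).mpr hd), hv i d hd, WithZero.log_one,
        Int.cast_zero, zero_smul]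
    | zero => rw [map_zero]
    | add x y _ _ hx hy => rw [map_add, hx, hy, add_zero]
    | smul q x _ hx => rw [map_smul, hx, smul_zero]
  have hC : ∀ i, ∑ j, ((WithZero.log (v i (b j)) : ℤ) : ℚ) • C j = 0 := by
    intro i
    obtain ⟨ρ, h1, h2⟩ := exists_retract (v i) (hv i) (hs i)
    have h3 := h1 _ (h0 i)
    rw [map_add, h1 _ (hy0 i), add_zero, map_sum] at h3
    rw [← h3]
    refine Finset.sum_congr rfl fun j _ => ?_
    rw [h2, valL_lg _ (hb j)]
  have hC0 : ∀ j, C j = 0 := by
    intro j
    rw [← Module.forall_dual_apply_eq_zero_iff ℚ]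
    intro ψ
    have := hM (fun j => ψ (C j)) (fun i => by
      have h3 := congrArg ψ (hC i)
      rw [map_sum, map_zero] at h3
      rw [← h3]
      refine Finset.sum_congr rfl fun j _ => ?_
      rw [map_smul, smul_eq_mul])
    exact congrFun this j
  have : ∑ j, (hk (mapB (algebraMap k F) (C j)) (lg (b j)) : HK F) = 0 := by
    refine Finset.sum_eq_zero fun j _ => ?_
    rw [hC0, map_zero, hk_zero_left]
  rw [this, zero_add]
  exact hy

end kill2

end Pool.Agent.K4CC
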