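import Pool.Agent.Lib_helper2.K4C.Places
import Pool.Agent.Lib_helper2.K4C.Res

set_option autoImplicit false

/-!
Residue fields of the places of a function field over an algebraically closed field, and: no
residues, no constants.
-/

namespace Pool.Agent.K4CC

open scoped WithZero TensorProduct
open IntermediateField IntermediateField.algebraAdjoinAdjoin

section res

variable {k F : Type*} [Field k] [IsAlgClosed k] [Field F] [Algebra k F]

/-- the residue field of a place is `k` -/
theorem res_const (x : F) (hF : Algebra.IsAlgebraic (adjoin k {x}) F)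
    (v : Valuation F ℤᵐ⁰) (hv : ∀ c : k, c ≠ 0 → v (algebraMap k F c) = 1)
    (f : F) (hf : f ≠ 0) (hvf : v f ≠ 1) (g : F) (hg : v g = 1) :
    ∃ c : k, v (g - algebraMap k F c) < 1 := by
  by_contra hcon
  push Not at hcon
  have h1 : ∀ c : k, v (g - algebraMap k F c) = 1 := by
    intro c
    refine le_antisymm ?_ (hcon c)
    refine (Valuation.map_sub v g _).trans ?_
    rw [hg]
    refine max_le le_rfl ?_
    by_cases hc : c = 0
    · rw [hc, map_zero, map_zero]; exact zero_le_one
    · exact (hv c hc).le
  have h2 : ∀ p : Polynomial k, p ≠ 0 → v (Polynomial.aeval g p) = 1 := by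
    intro p hp
    have hs := IsAlgClosed.splits p
    have e := hs.eq_prod_roots
    rw [e, map_mul, Polynomial.aeval_C, map_mul, hv _ (Polynomial.leadingCoeff_ne_zero.mpr hp),
      one_mul, map_multiset_prod, Multiset.map_map, map_multiset_prod, Multiset.map_map]
    apply Multiset.prod_eq_one
    intro z hz
    rw [Multiset.mem_map] at hz
    obtain ⟨c, _, rfl⟩ := hz
    simp only [Function.comp_apply, map_sub, Polynomial.aeval_X, Polynomial.aeval_C]
    exact h1 c
  have htr : Transcendental k g := by
    rintro ⟨p, hp, h0⟩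
    have := h2 p hp
    rw [h0, map_zero] at this
    exact zero_ne_one this
  have hA := isAlg_adjoin x hF g htr
  have h3 : ∀ z : adjoin k {g}, v (z : F) ≤ 1 := by
    rintro ⟨z, hz⟩
    obtain ⟨a, ha, b, hb, e⟩ := mem_adjoin_iff_div.mp hz
    rw [Algebra.adjoin_singleton_eq_range_aeval] at ha hb
    obtain ⟨p, rfl⟩ := ha
    obtain ⟨q, rfl⟩ := hb
    have e' : z = Polynomial.aeval g p / Polynomial.aeval g q := e
    show v z ≤ 1
    rw [e']
    by_cases hp : p = 0
    · rw [hp, map_zero, zero_div, map_zero]; exact zero_le_one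
    by_cases hq : q = 0
    · rw [hq, map_zero, div_zero, map_zero]; exact zero_le_one
    rw [map_div₀, h2 p hp, h2 q hq, div_one]
  let φ : adjoin k {g} →+* v.valuationSubring :=
    (algebraMap (adjoin k {g}) F).codRestrict v.valuationSubring.toSubring (fun z => h3 z)
  have h4 : ∀ h : F, v h ≤ 1 := by
    intro h
    obtain ⟨p, hp, h0⟩ := (hA.isAlgebraic h).isIntegral
    have : IsIntegral v.valuationSubring h := by
      refine ⟨p.map φ, hp.map φ, ?_⟩
      rw [Polynomial.eval₂_map]
      exact h0
    obtain ⟨z, hz⟩ := IsIntegrallyClosed.isIntegral_iff.mp this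
    rw [← hz]
    exact z.2
  have h5 := h4 f
  have h6 := h4 f⁻¹
  rw [map_inv₀] at h6
  have h7 : v f ≠ 0 := by rw [ne_eq, map_eq_zero]; exact hf
  exact hvf (le_antisymm h5 ((inv_le_one₀ (zero_lt_iff.mpr h7)).mp h6))

end res

end Pool.Agent.K4CC
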